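import Pool.Agent.NIL.RkW

/-!
# Bdd: boundedness

Nodes: pairs `(t, s) : List Bool × List ℕ`; `N (t, s)`: for all `z` with `pre z t.length = t` the list `s` is a chain
for the relation `fun a b => mW (f z) b a` (`List.IsChain`; as `Desc (mW (f z)) s`). `R (t', s') (t, s)`: `N (t', s')`,
`t <+: t'`, and `s' = s ++ [a]` for some `a`.
* `R` is well-founded: otherwise there is an infinite descending sequence `(t_n, s_n)`
  (`RelEmbedding`/`not_wellFounded_iff...`, or `WellFounded` via `wellFounded_iff_isEmpty_descending_chain`); the lists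
  `t_n` are initial segments of one another, so there is a `z` which extends all of them, and the last elements
  of the `s_n`, `n ≥ 1`, are an infinite `mW (f z)`-descending sequence, which contradicts `h z`.
* By `Rk_bound_countable` there is `δ < ω₁` with `¬ Rk R δ p` for all `p`.
* Claim: if `Rk (mW (f z)) b a` and `N (t, s ++ [a])`, `pre z t.length = t`, then `Rk R b (t, s ++ [a])`. Induction on `b`:
  for `c < b` there is `a'` with `mW (f z) a' a`, `Rk (mW (f z)) c a'`. `mW (f z') a' a` is the value of one bit of `f z'`, so by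
  the continuity of `f` there is `n` such that it is true for all `z'` with `pre z' n = pre z n` (a clopen set of
  `ℕ → Bool` containing `z` contains a cylinder; `PiNat.cylinder` or `isOpen_pi_iff`). Let `t' = pre z (max n t.length)`:
  `N (t', s ++ [a] ++ [a'])`, and the induction hypothesis.
* With `t = []`, `s = []`: `Rk (mW (f z)) δ a` would give `Rk R δ ([], [a])`.
-/

namespace Pool.Agent.NIL

open Cardinal Pool.Agent.NI

theorem Bdd_pre_iff (z z' : Rl) (n : ℕ) : pre z' n = pre z n ↔ ∀ i < n, z' i = z i := by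
  unfold pre
  rw [List.map_inj_left]
  constructor
  · intro h i hi
    exact h i (List.mem_range.2 hi)
  · intro h i hi
    exact h i (List.mem_range.1 hi)

theorem Bdd_pre_length (z : Rl) (n : ℕ) : (pre z n).length = n := by
  simp [pre]

theorem Bdd_pre_prefix (z : Rl) {n n' : ℕ} (h : n ≤ n') : pre z n <+: pre z n' := by
  have h1 : pre z n = (pre z n').take n := by
    unfold pre
    rw [← List.map_take, List.take_range, Nat.min_eq_left h]
  rw [h1]
  exact List.take_prefix _ _

theorem Bdd_open (f : Rl → Rl) (hf : Continuous f) (z : Rl) (a' a : ℕ) (h : mW (f z) a' a) (n : ℕ) :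
    ∃ n', n ≤ n' ∧ ∀ z', pre z' n' = pre z n' → mW (f z') a' a := by
  have h1 : IsOpen {z' : Rl | mW (f z') a' a} := by
    have h2 : Continuous fun z' : Rl => od (f z') (4 * Nat.pair a' a + 1) := by
      unfold od
      exact (continuous_apply _).comp hf
    exact (isOpen_discrete ({true} : Set Bool)).preimage h2
  obtain ⟨I, u, h2, h3⟩ := isOpen_pi_iff.1 h1 z h
  refine ⟨max n (I.sup id + 1), le_max_left _ _, fun z' hz' => ?_⟩
  rw [Bdd_pre_iff] at hz'
  apply h3
  intro i hi
  have h4 : i ≤ I.sup id := Finset.le_sup (f := id) hi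
  rw [hz' i (lt_of_lt_of_le (Nat.lt_succ_of_le h4) (le_max_right _ _))]
  exact (h2 i hi).2

/-- The relation on the nodes. -/
def Bdd_R (f : Rl → Rl) (q p : List Bool × ℕ) : Prop :=
  p.1 <+: q.1 ∧ ∀ z, pre z q.1.length = q.1 → mW (f z) q.2 p.2

theorem Bdd_wf (f : Rl → Rl) (h : ∀ z, WellFounded (mW (f z))) : WellFounded (Bdd_R f) := by
  rw [wellFounded_iff_isEmpty_descending_chain]
  refine ⟨fun ⟨g, hg⟩ => ?_⟩
  have hmono : ∀ n m, n ≤ m → (g n).1 <+: (g m).1 := by
    intro n m hnm
    induction m, hnm using Nat.le_induction with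
    | base => exact List.prefix_rfl
    | succ m _ ih => exact ih.trans (hg m).1
  have hget : ∀ n m i, i < (g n).1.length → i < (g m).1.length → (g n).1[i]? = (g m).1[i]? := by
    intro n m i hn hm
    rcases le_total n m with h1 | h1
    · obtain ⟨t, ht⟩ := hmono n m h1
      rw [← ht, List.getElem?_append_left hn]
    · obtain ⟨t, ht⟩ := hmono m n h1
      rw [← ht, List.getElem?_append_left hm]
  classical
  let z : Rl := fun i => if hi : ∃ n, i < (g n).1.length then
    ((g hi.choose).1[i]?).getD false else false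
  have hz : ∀ n i (hi : i < (g n).1.length), z i = (g n).1[i] := by
    intro n i hi
    have h1 : ∃ n, i < (g n).1.length := ⟨n, hi⟩
    have h2 : z i = ((g h1.choose).1[i]?).getD false := dif_pos h1
    rw [h2, hget _ n i h1.choose_spec hi, List.getElem?_eq_getElem hi]
    rfl
  have hpre : ∀ n, pre z (g n).1.length = (g n).1 := by
    intro n
    apply List.ext_getElem
    · rw [Bdd_pre_length]
    · intro i h1 h2
      rw [← hz n i h2]
      simp [pre]
  have h1 := h z
  rw [wellFounded_iff_isEmpty_descending_chain] at h1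
  exact h1.elim ⟨fun n => (g n).2, fun n => (hg n).2 z (hpre (n + 1))⟩

theorem Bdd_rk (f : Rl → Rl) (hf : Continuous f) (b : Ordinal.{0}) :
    ∀ (z : Rl) (a n : ℕ), Rk (mW (f z)) b a → Rk (Bdd_R f) b (pre z n, a) := by
  induction b using WellFoundedLT.induction with
  | ind b ih =>
    intro z a n h
    rw [Rk] at h ⊢
    intro c hc
    obtain ⟨a', h1, h2⟩ := h c hc
    obtain ⟨n', h3, h4⟩ := Bdd_open f hf z a' a h1 n
    refine ⟨(pre z n', a'), ⟨Bdd_pre_prefix z h3, fun z' hz' => ?_⟩, ih c hc z a' n' h2⟩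
    apply h4
    rw [Bdd_pre_length] at hz'
    exact hz'

theorem bounded (f : Rl → Rl) (hf : Continuous f) (h : ∀ z, WellFounded (mW (f z))) :
    ∃ δ : Ordinal.{0}, δ < Ordinal.omega 1 ∧ ∀ z a, ¬ Rk (mW (f z)) δ a := by
  obtain ⟨δ, h1, h2⟩ := Rk_bound_countable (Bdd_R f) (Bdd_wf f h)
  exact ⟨δ, h1, fun z a h3 => h2 (pre z 0, a) (Bdd_rk f hf δ z a 0 h3)⟩

end Pool.Agent.NIL
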