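import Pool.Agent.NIL.Clo

/-!
# CndA: countable closed subsets of level structures

`SF` is countable (it injects into the trees/lists of numbers; e.g. give an injection into `ℕ` by recursion with
`Nat.pair`: `mem i j ↦ 5 * pair i j`, `eq i j ↦ 5 * pair i j + 1`, `neg f ↦ 5 * c f + 2`,
`and f g ↦ 5 * pair (c f) (c g) + 3`, `all f ↦ 5 * c f + 4`). For a level structure `(D, E, W)` and a countable
nonempty or empty `C ⊆ D` apply `exists_closure` on the subtype `{a // D a}` (if it is empty everything is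
trivial, `X = ∅`; otherwise fix an element `a₀`) or on `α` itself with functions that take the value `a₀ ∈ D` by
default, with the family (indexed by `SF ⊕ SF ⊕ ℕ ⊕ Unit`) of functions of a list `b :: p`:
* `inl f`: an `a` with `Low D W b a ∧ f.holds E (Low D W b) (a :: p)` if there is one, else `a₀`;
* `inr (inl f)`: the element of `LS.cmp b f p` if `b ∈ D` and all `q ∈ p` are in `Low D W b`, else `a₀`;
* `inr (inr (inl i))`: the `i`-th entry (`getD i a₀`) of the list of parameters chosen from `LS.dfn b`;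
* the last one: for a list `[a, b]` with `a ≠ b` in `D` a `z ∈ D` with `¬ (E z a ↔ E z b)` (`LS.ext`).
Then `X` (or its image in `α`) satisfies `Clsd`. For `df`: every `q` in the chosen list is its `i`-th entry for
some `i`.
-/

namespace Pool.Agent.NIL

open Cardinal Pool.Agent.NI

/-- The closure conditions. -/
structure Clsd {α : Type*} (D : α → Prop) (E W : α → α → Prop) (X : Set α) : Prop where
  sub : ∀ a ∈ X, D a
  tv : ∀ b ∈ X, ∀ (f : SF) (p : List α), (∀ q ∈ p, q ∈ X ∧ W q b) →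
    (∃ a, Low D W b a ∧ f.holds E (Low D W b) (a :: p)) →
    ∃ a ∈ X, W a b ∧ f.holds E (Low D W b) (a :: p)
  cm : ∀ b ∈ X, ∀ (f : SF) (p : List α), (∀ q ∈ p, q ∈ X ∧ W q b) →
    ∃ a ∈ X, ¬ W b a ∧ ∀ z, D z → (E z a ↔ (W z b ∧ f.holds E (Low D W b) (z :: p)))
  df : ∀ b ∈ X, ∃ (f : SF) (p : List α), (∀ q ∈ p, q ∈ X ∧ W q b) ∧
    ∀ z, Low D W b z → (E z b ↔ f.holds E (Low D W b) (z :: p))
  ex : ∀ a ∈ X, ∀ b ∈ X, a ≠ b → ∃ z ∈ X, ¬ (E z a ↔ E z b)

/-- numbers of formulas -/
def CndA_c : SF → ℕ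
  | SF.mem i j => 5 * Nat.pair i j
  | SF.eq i j => 5 * Nat.pair i j + 1
  | SF.neg f => 5 * CndA_c f + 2
  | SF.and f g => 5 * Nat.pair (CndA_c f) (CndA_c g) + 3
  | SF.all f => 5 * CndA_c f + 4

theorem CndA_inj : ∀ f g : SF, CndA_c f = CndA_c g → f = g := by
  intro f
  induction f with
  | mem i j =>
    intro g h
    cases g <;> simp only [CndA_c] at h <;> try omega
    rename_i i' j'
    have h1 : Nat.pair i j = Nat.pair i' j' := by omega
    rw [Nat.pair_eq_pair] at h1
    rw [h1.1, h1.2]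
  | eq i j =>
    intro g h
    cases g <;> simp only [CndA_c] at h <;> try omega
    rename_i i' j'
    have h1 : Nat.pair i j = Nat.pair i' j' := by omega
    rw [Nat.pair_eq_pair] at h1
    rw [h1.1, h1.2]
  | neg f ih =>
    intro g h
    cases g <;> simp only [CndA_c] at h <;> try omega
    rename_i g
    rw [ih g (by omega)]
  | and f f' ih ih' =>
    intro g h
    cases g <;> simp only [CndA_c] at h <;> try omega
    rename_i g g'
    have h1 : Nat.pair (CndA_c f) (CndA_c f') = Nat.pair (CndA_c g) (CndA_c g') := by omega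
    rw [Nat.pair_eq_pair] at h1
    rw [ih g h1.1, ih' g' h1.2]
  | all f ih =>
    intro g h
    cases g <;> simp only [CndA_c] at h <;> try omega
    rename_i g
    rw [ih g (by omega)]

instance : Countable SF := by
  exact (Function.Injective.countable (f := CndA_c) (fun f g h => CndA_inj f g h))

/-- Skolem closures -/
theorem CndA_skolem {α : Type*} {ι : Type} [Countable ι] (D : α → Prop)
    (P : ι → List α → α → Prop) (hP : ∀ i l a, P i l a → D a) (C : Set α) (hC : C.Countable)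
    (hCD : ∀ a ∈ C, D a) : ∃ X : Set α, C ⊆ X ∧ X.Countable ∧ (∀ a ∈ X, D a) ∧
      ∀ i l, (∀ q ∈ l, q ∈ X) → (∃ a, P i l a) → ∃ a ∈ X, P i l a := by
  classical
  by_cases h0 : ∃ a₀, D a₀
  · obtain ⟨a₀, ha₀⟩ := h0
    let F : ι → List α → α := fun i l => if h : ∃ a, P i l a then h.choose else a₀
    have hFP : ∀ i l, (∃ a, P i l a) → P i l (F i l) := by
      intro i l h
      show P i l (if h : ∃ a, P i l a then h.choose else a₀)
      rw [dif_pos h]
      exact h.choose_spec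
    have hFD : ∀ i l, D (F i l) := by
      intro i l
      by_cases h : ∃ a, P i l a
      · exact hP i l _ (hFP i l h)
      · show D (if h : ∃ a, P i l a then h.choose else a₀)
        rw [dif_neg h]
        exact ha₀
    obtain ⟨X, hX, hXc, hXF⟩ := exists_closure F C hC
    refine ⟨X ∩ {a | D a}, fun a ha => ⟨hX ha, hCD a ha⟩, hXc.mono Set.inter_subset_left,
      fun a ha => ha.2, ?_⟩
    intro i l hl he
    exact ⟨F i l, ⟨hXF i l (fun q hq => (hl q hq).1), hFD i l⟩, hFP i l he⟩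
  · have h1 : ∀ a, ¬ D a := fun a ha => h0 ⟨a, ha⟩
    refine ⟨∅, fun a ha => absurd (hCD a ha) (h1 a), Set.countable_empty, fun a ha => ha.elim, ?_⟩
    rintro i l - ⟨a, ha⟩
    exact absurd (hP i l a ha) (h1 a)

theorem exists_Clsd {α : Type*} (D : α → Prop) (E W : α → α → Prop) (h : LS D E W) (C : Set α)
    (hC : C.Countable) (hCD : ∀ a ∈ C, D a) : ∃ X : Set α, C ⊆ X ∧ X.Countable ∧ Clsd D E W X := by
  choose ff pp hpp using h.dfn
  let P : (SF ⊕ SF ⊕ ℕ ⊕ Unit) → List α → α → Prop := fun i l a => D a ∧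
    (match i with
      | Sum.inl f => ∃ b p, l = b :: p ∧ W a b ∧ f.holds E (Low D W b) (a :: p)
      | Sum.inr (Sum.inl f) => ∃ b p, l = b :: p ∧ ¬ W b a ∧
          ∀ z, D z → (E z a ↔ (W z b ∧ f.holds E (Low D W b) (z :: p)))
      | Sum.inr (Sum.inr (Sum.inl k)) => ∃ b, ∃ hb : D b, l = [b] ∧ (pp b hb)[k]? = some a
      | Sum.inr (Sum.inr (Sum.inr _)) => ∃ x y, l = [x, y] ∧ ¬ (E a x ↔ E a y))
  obtain ⟨X, hCX, hXc, hXD, hX⟩ := CndA_skolem D P (fun i l a ha => ha.1) C hC hCD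
  refine ⟨X, hCX, hXc, hXD, ?_, ?_, ?_, ?_⟩
  · intro b hb f p hp ⟨a, ha, haf⟩
    obtain ⟨a', ha', hD, b', p', he, h1, h2⟩ := hX (Sum.inl f) (b :: p) (by
      intro q hq
      rcases List.mem_cons.1 hq with rfl | hq
      · exact hb
      · exact (hp q hq).1) ⟨a, ha.1, b, p, rfl, ha.2, haf⟩
    obtain ⟨rfl, rfl⟩ := List.cons.inj he
    exact ⟨a', ha', h1, h2⟩
  · intro b hb f p hp
    obtain ⟨a, ha, h1, h2⟩ := h.cmp b (hXD b hb) f p (fun q hq => ⟨hXD q (hp q hq).1, (hp q hq).2⟩)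
    obtain ⟨a', ha', hD, b', p', he, h3, h4⟩ := hX (Sum.inr (Sum.inl f)) (b :: p) (by
      intro q hq
      rcases List.mem_cons.1 hq with rfl | hq
      · exact hb
      · exact (hp q hq).1) ⟨a, ha, b, p, rfl, h1, h2⟩
    obtain ⟨rfl, rfl⟩ := List.cons.inj he
    exact ⟨a', ha', h3, h4⟩
  · intro b hb
    have hDb := hXD b hb
    refine ⟨ff b hDb, pp b hDb, ?_, (hpp b hDb).2⟩
    intro q hq
    have h1 := (hpp b hDb).1 q hq
    refine ⟨?_, h1.2⟩
    obtain ⟨k, hk⟩ := List.mem_iff_getElem?.1 hq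
    obtain ⟨a', ha', hD, b', hb', he, h3⟩ := hX (Sum.inr (Sum.inr (Sum.inl k))) [b] (by
      intro q hq
      rw [List.mem_singleton] at hq
      rw [hq]
      exact hb) ⟨q, h1.1, b, hDb, rfl, hk⟩
    obtain ⟨rfl, -⟩ := List.cons.inj he
    rw [hk] at h3
    rw [Option.some.inj h3]
    exact ha'
  · intro a ha b hb hab
    have h1 : ∃ z, D z ∧ ¬ (E z a ↔ E z b) := by
      by_contra hcon
      push Not at hcon
      apply hab
      apply h.ext a b (hXD a ha) (hXD b hb)
      intro z hz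
      have := hcon z hz
      tauto
    obtain ⟨z, hz, hzab⟩ := h1
    obtain ⟨a', ha', hD, x, y, he, h3⟩ := hX (Sum.inr (Sum.inr (Sum.inr ()))) [a, b] (by
      intro q hq
      rcases List.mem_cons.1 hq with rfl | hq
      · exact ha
      · rw [List.mem_singleton] at hq
        rw [hq]
        exact hb) ⟨z, hz, a, b, rfl, hzab⟩
    obtain ⟨rfl, he2⟩ := List.cons.inj he
    obtain ⟨rfl, -⟩ := List.cons.inj he2
    exact ⟨a', ha', h3⟩

end Pool.Agent.NIL
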