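import Pool.Agent.NIL.Num
import Pool.Agent.NIL.CndA

/-!
# CtL: countable levels
-/

namespace Pool.Agent.NIL

open Cardinal Pool.Agent.NI

lemma CtL_iio (δ : Ordinal.{0}) (h : δ < Ordinal.omega 1) : (Set.Iio δ).Countable := by
  have h1 : δ.card < ℵ₁ := Cardinal.lt_omega_iff_card_lt.1 h
  have h2 : Cardinal.mk (Set.Iio δ) ≤ ℵ₀ := by
    rw [Cardinal.mk_Iio_ordinal, Cardinal.lift_le_aleph0]
    rw [← Order.lt_succ_iff, Cardinal.succ_aleph0]
    exact h1
  exact Cardinal.le_aleph0_iff_set_countable.1 h2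

theorem Lc_countable (δ : Ordinal.{0}) (h : δ < Ordinal.omega 1) :
    {x : ZFSet.{0} | Lc δ x}.Countable := by
  induction δ using WellFoundedLT.induction with
  | ind δ ih =>
    have h1 : {x : ZFSet.{0} | Lc δ x} ⊆ ⋃ β ∈ Set.Iio δ, {x : ZFSet.{0} | (∀ z ∈ x, Lc β z) ∧
        ∃ (f : SF) (p : List ZFSet.{0}), (∀ q ∈ p, Lc β q) ∧
          ∀ z, Lc β z → (z ∈ x ↔ f.holds (fun a b => a ∈ b) (Lc β) (z :: p))} := by
      intro x hx
      have hx' : Lc δ x := hx
      rw [Lc] at hx'
      obtain ⟨β, hβ, h2, h3⟩ := hx'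
      exact Set.mem_iUnion₂.2 ⟨β, hβ, h2, h3⟩
    refine Set.Countable.mono h1 ?_
    refine Set.Countable.biUnion (CtL_iio δ h) ?_
    intro β hβ
    have hβ' : β < δ := hβ
    have h3 : {x : ZFSet.{0} | Lc β x}.Countable := ih β hβ' (hβ'.trans h)
    have h4 : Countable {x : ZFSet.{0} // Lc β x} := h3.to_subtype
    have h5 : Countable (SF × List {x : ZFSet.{0} // Lc β x}) := inferInstance
    let T : Set ZFSet.{0} := {x : ZFSet.{0} | (∀ z ∈ x, Lc β z) ∧
        ∃ (f : SF) (p : List ZFSet.{0}), (∀ q ∈ p, Lc β q) ∧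
          ∀ z, Lc β z → (z ∈ x ↔ f.holds (fun a b => a ∈ b) (Lc β) (z :: p))}
    have h6 : ∀ x : T, ∃ q : SF × List {x : ZFSet.{0} // Lc β x}, ∀ z, Lc β z → (z ∈ x.1 ↔
        q.1.holds (fun a b => a ∈ b) (Lc β) (z :: q.2.map Subtype.val)) := by
      rintro ⟨x, hx1, f, p, hp, hx2⟩
      refine ⟨(f, p.attach.map fun q => ⟨q.1, hp q.1 q.2⟩), ?_⟩
      intro z hz
      have h7 : (p.attach.map fun q => (⟨q.1, hp q.1 q.2⟩ : {x : ZFSet.{0} // Lc β x})).map Subtype.val
          = p := by
        rw [List.map_map]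
        exact List.attach_map_subtype_val p
      simp only [h7]
      exact hx2 z hz
    choose F hF using h6
    have h8 : Function.Injective F := by
      intro x y hxy
      apply Subtype.ext
      apply ZFSet.ext
      intro z
      constructor
      · intro hz
        have h9 : Lc β z := x.2.1 z hz
        rw [hF y z h9, ← hxy, ← hF x z h9]
        exact hz
      · intro hz
        have h9 : Lc β z := y.2.1 z hz
        rw [hF x z h9, hxy, ← hF y z h9]
        exact hz
    have h10 : Countable T := h8.countable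
    exact Set.countable_coe_iff.1 h10

theorem RL_countable (δ : Ordinal.{0}) (h : δ < Ordinal.omega 1) : (RL δ).Countable :=
  (Lc_countable δ h).preimage_of_injOn (rz_inj.injOn)

end Pool.Agent.NIL
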