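import Pool.Agent.NIL.CndA

/-!
# CndB: condensation

* `Clsd_elem` (Tarski-Vaught): induction on `f`, for all `v`. Atomic formulas, `neg`, `and`: immediate. `all f`: `→`
  clear (elements of `Low (· ∈ X) W b` are in `Low D W b` by `sub`). `←`: if it fails in `Low D W b` for `all f`, there
  is `a` with `Low D W b a` and `(neg f).holds E (Low D W b) (a :: v)`; by `tv` (for the formula `neg f`) there is such an
  `a ∈ X`; by the induction hypothesis `f` fails at `a :: v` in `Low (· ∈ X) W b`.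
* `Clsd_LS`: `irr, tra, neg, low` are inherited. `ext`: `ex`. `dfn`: `df` with `Clsd_elem`. `cmp`: `cm` with
  `Clsd_elem` (for `z ∈ X` with `W z b`; if `¬ W z b` both sides are false).
-/

namespace Pool.Agent.NIL

open Cardinal Pool.Agent.NI

theorem Clsd_elem {α : Type*} (D : α → Prop) (E W : α → α → Prop) (X : Set α)
    (hX : Clsd D E W X) (b : α) (hb : b ∈ X) (f : SF) (v : List α)
    (hv : ∀ q ∈ v, q ∈ X ∧ W q b) :
    f.holds E (Low D W b) v ↔ f.holds E (Low (fun a => a ∈ X) W b) v := by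
  induction f generalizing v with
  | mem i j => simp only [SF.holds]
  | eq i j => simp only [SF.holds]
  | neg f ih =>
    simp only [SF.holds]
    rw [ih v hv]
  | and f g ih ih' =>
    simp only [SF.holds]
    rw [ih v hv, ih' v hv]
  | all f ih =>
    simp only [SF.holds]
    have hcons : ∀ a, a ∈ X → W a b → ∀ q ∈ a :: v, q ∈ X ∧ W q b := by
      intro a ha hab q hq
      rcases List.mem_cons.1 hq with rfl | hq
      · exact ⟨ha, hab⟩
      · exact hv q hq
    constructor
    · rintro h a ⟨ha, hab⟩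
      exact (ih (a :: v) (hcons a ha hab)).1 (h a ⟨hX.sub a ha, hab⟩)
    · intro h a ha
      by_contra hn
      obtain ⟨c, hc, hcb, hf⟩ := hX.tv b hb (SF.neg f) v hv ⟨a, ha, hn⟩
      exact hf ((ih (c :: v) (hcons c hc hcb)).2 (h c ⟨hc, hcb⟩))

theorem Clsd_LS {α : Type*} (D : α → Prop) (E W : α → α → Prop) (h : LS D E W) (X : Set α)
    (hX : Clsd D E W X) : LS (fun a => a ∈ X) E W := by
  have hcons : ∀ (b z : α) (p : List α), (∀ q ∈ p, q ∈ X ∧ W q b) → z ∈ X → W z b →
      ∀ q ∈ z :: p, q ∈ X ∧ W q b := by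
    intro b z p hp hz hzb q hq
    rcases List.mem_cons.1 hq with rfl | hq
    · exact ⟨hz, hzb⟩
    · exact hp q hq
  refine ⟨?_, ?_, ?_, ?_, ?_, ?_, ?_⟩
  · intro a ha
    exact h.irr a (hX.sub a ha)
  · intro a b c ha hb hc
    exact h.tra a b c (hX.sub a ha) (hX.sub b hb) (hX.sub c hc)
  · intro a b c ha hb hc
    exact h.neg a b c (hX.sub a ha) (hX.sub b hb) (hX.sub c hc)
  · intro a b ha hb hz
    by_contra hne
    obtain ⟨z, hzX, hz'⟩ := hX.ex a ha b hb hne
    exact hz' (hz z hzX)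
  · intro a b ha hb
    exact h.low a b (hX.sub a ha) (hX.sub b hb)
  · intro b hb
    obtain ⟨f, p, hp, hf⟩ := hX.df b hb
    refine ⟨f, p, fun q hq => hp q hq, ?_⟩
    rintro z ⟨hz, hzb⟩
    rw [hf z ⟨hX.sub z hz, hzb⟩]
    exact Clsd_elem D E W X hX b hb f (z :: p) (hcons b z p hp hz hzb)
  · intro b hb f p hp
    obtain ⟨a, ha, hba, hz⟩ := hX.cm b hb f p (fun q hq => hp q hq)
    refine ⟨a, ha, hba, ?_⟩
    intro z hzX
    rw [hz z (hX.sub z hzX)]
    constructor
    · rintro ⟨h1, h2⟩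
      exact ⟨h1, (Clsd_elem D E W X hX b hb f (z :: p) (hcons b z p (fun q hq => hp q hq) hzX h1)).1 h2⟩
    · rintro ⟨h1, h2⟩
      exact ⟨h1, (Clsd_elem D E W X hX b hb f (z :: p) (hcons b z p (fun q hq => hp q hq) hzX h1)).2 h2⟩

end Pool.Agent.NIL
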