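import Pool.Agent.NIL.LvB

/-!
# Num: numerals and reals as sets

* `mem_nm_succ`: `ZFSet.mem_insert_iff`. `mem_rz`: `ZFSet.mem_range`.
* `nm_inj`: e.g. `nm n ∈ nm m ↔ ∃ k < m, nm n = nm k`, and `nm n ∉ nm n` (`ZFSet.mem_irrefl`); if `n < m` then
  `nm n ∈ nm m`.
* `Lc_nm`: `Lc (n + 1) (nm n)` for all `n` (`n` as an ordinal), by induction: `nm (n + 1)` is the set of all
  `z ∈ L_{n+1}` with `z ∈ nm n ∨ z = nm n`: formula `neg (and (neg (mem 0 1)) (neg (eq 0 1)))`, parameter `[nm n]`; its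
  elements are in `L_{n+1}` (`Lc_trans`). `nm 0 = ∅`: a false formula, e.g. `neg (eq 0 0)`, with `β = 0`.
-/

namespace Pool.Agent.NIL

open Cardinal Pool.Agent.NI

theorem mem_nm_zero (z : ZFSet.{0}) : ¬ z ∈ nm 0 := by
  unfold nm
  exact ZFSet.notMem_empty z

theorem mem_nm_succ (n : ℕ) (z : ZFSet.{0}) : z ∈ nm (n + 1) ↔ (z ∈ nm n ∨ z = nm n) := by
  have e : nm (n + 1) = insert (nm n) (nm n) := rfl
  rw [e, ZFSet.mem_insert_iff]
  exact Or.comm

theorem Num_lt {n m : ℕ} (h : n < m) : nm n ∈ nm m := by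
  induction m with
  | zero => omega
  | succ m ih =>
    rw [mem_nm_succ]
    rcases Nat.lt_succ_iff_lt_or_eq.1 h with h1 | h1
    · exact Or.inl (ih h1)
    · exact Or.inr (by rw [h1])

theorem nm_inj : Function.Injective nm := by
  intro n m h
  rcases lt_trichotomy n m with h1 | h1 | h1
  · have h2 := Num_lt h1
    rw [h] at h2
    exact absurd h2 (ZFSet.mem_irrefl _)
  · exact h1
  · have h2 := Num_lt h1
    rw [h] at h2
    exact absurd h2 (ZFSet.mem_irrefl _)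

theorem mem_rz (x : Rl) (z : ZFSet.{0}) : z ∈ rz x ↔ ∃ n, x n = true ∧ z = nm n := by
  unfold rz
  rw [ZFSet.mem_range]
  constructor
  · rintro ⟨n, rfl⟩
    exact ⟨n.1, n.2, rfl⟩
  · rintro ⟨n, hn, rfl⟩
    exact ⟨⟨n, hn⟩, rfl⟩

theorem Num_rz (x : Rl) (n : ℕ) : nm n ∈ rz x ↔ x n = true := by
  rw [mem_rz]
  constructor
  · rintro ⟨m, hm, h⟩
    rw [nm_inj h]
    exact hm
  · intro h
    exact ⟨n, h, rfl⟩

theorem rz_inj : Function.Injective rz := by
  intro x y h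
  funext n
  have h1 : x n = true ↔ y n = true := by rw [← Num_rz, ← Num_rz, h]
  exact Bool.eq_iff_iff.2 h1

theorem Num_Lc (n : ℕ) : Lc ((n : Ordinal.{0}) + 1) (nm n) := by
  induction n with
  | zero =>
    rw [Lc]
    refine ⟨0, by simp, fun z hz => absurd hz (mem_nm_zero z), SF.neg (SF.eq 0 0), [], by simp, ?_⟩
    intro z hz
    rw [Lc] at hz
    obtain ⟨β, hβ, _⟩ := hz
    exact absurd hβ (not_lt_bot (a := β))
  | succ n ih =>
    rw [Lc]
    refine ⟨(n : Ordinal.{0}) + 1, ?_, ?_, SF.neg (SF.and (SF.neg (SF.mem 0 1)) (SF.neg (SF.eq 0 1))), [nm n], ?_, ?_⟩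
    · rw [← Nat.cast_succ, ← Order.succ_eq_add_one ((n.succ : Ordinal.{0}))]
      exact Order.lt_succ _
    · intro z hz
      rcases (mem_nm_succ n z).1 hz with h1 | h1
      · exact Lc_trans ih h1
      · rw [h1]; exact ih
    · intro q hq
      rw [List.mem_singleton.1 hq]
      exact ih
    · intro z _
      rw [mem_nm_succ]
      simp only [SF.holds]
      simp
      tauto

theorem Lc_nm (n : ℕ) : Lc Ordinal.omega0 (nm n) := by
  refine Lc_mono ?_ (Num_Lc n)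
  have h : ((n + 1 : ℕ) : Ordinal.{0}) < Ordinal.omega0 := Ordinal.natCast_lt_omega0 (n + 1)
  rw [Nat.cast_succ] at h
  exact h.le

end Pool.Agent.NIL
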