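import Pool.Agent.NIL.Hol

/-!
# Trn: transport of a level structure to the natural numbers

Every axiom is transported with `g`: `D a ↔ ∃ i, g i = a`. For `dfn` and `cmp` use `holds_iso g` with
`D := Low All (fun i j => W (g i) (g j)) b`, `D' := Low D W (g b)`; a list `p` of elements of `D` is `p'.map g` for a list
`p'` of numbers (induction on the list, or `List.map` of a left inverse of `g`).
-/

namespace Pool.Agent.NIL

open Cardinal Pool.Agent.NI

theorem Trn_list {α : Type*} {D : α → Prop} {g : ℕ → α} {b : ℕ} {W : α → α → Prop}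
    (hr : ∀ a, D a ↔ ∃ i, g i = a) (p : List α) (hp : ∀ q ∈ p, Low D W (g b) q) :
    ∃ p' : List ℕ, p'.map g = p ∧ ∀ q ∈ p', Low All (fun i j => W (g i) (g j)) b q := by
  induction p with
  | nil => exact ⟨[], rfl, by simp⟩
  | cons a p ih =>
    obtain ⟨p', hp', hq'⟩ := ih (fun q hq => hp q (List.mem_cons_of_mem _ hq))
    obtain ⟨ha, hab⟩ := hp a List.mem_cons_self
    obtain ⟨i, rfl⟩ := (hr a).1 ha
    refine ⟨i :: p', by rw [List.map_cons, hp'], ?_⟩
    intro q hq
    rcases List.mem_cons.1 hq with rfl | hq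
    · exact ⟨trivial, hab⟩
    · exact hq' q hq

theorem LS_transport {α : Type*} (D : α → Prop) (E W : α → α → Prop) (h : LS D E W) (g : ℕ → α)
    (hg : Function.Injective g) (hr : ∀ a, D a ↔ ∃ i, g i = a) :
    LS All (fun i j => E (g i) (g j)) (fun i j => W (g i) (g j)) := by
  have hD : ∀ i, D (g i) := fun i => (hr _).2 ⟨i, rfl⟩
  have hiso : ∀ (b : ℕ) (f : SF) (v : List ℕ), (∀ a ∈ v, Low All (fun i j => W (g i) (g j)) b a) →
      (f.holds (fun i j => E (g i) (g j)) (Low All (fun i j => W (g i) (g j)) b) v ↔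
        f.holds E (Low D W (g b)) (v.map g)) := by
    intro b f v hv
    refine holds_iso g _ _ _ _ ?_ ?_ ?_ ?_ f v hv
    · rintro a ⟨-, ha⟩
      exact ⟨hD a, ha⟩
    · rintro a ⟨ha, hab⟩
      obtain ⟨i, rfl⟩ := (hr a).1 ha
      exact ⟨i, ⟨trivial, hab⟩, rfl⟩
    · intro a b _ _
      exact Iff.rfl
    · intro a b _ _ hab
      exact hg hab
  have hcons : ∀ (b z : ℕ) (p : List ℕ), (∀ q ∈ p, Low All (fun i j => W (g i) (g j)) b q) →
      W (g z) (g b) → ∀ q ∈ z :: p, Low All (fun i j => W (g i) (g j)) b q := by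
    intro b z p hp hz q hq
    rcases List.mem_cons.1 hq with rfl | hq
    · exact ⟨trivial, hz⟩
    · exact hp q hq
  refine ⟨?_, ?_, ?_, ?_, ?_, ?_, ?_⟩
  · intro a _
    exact h.irr _ (hD a)
  · intro a b c _ _ _
    exact h.tra _ _ _ (hD a) (hD b) (hD c)
  · intro a b c _ _ _
    exact h.neg _ _ _ (hD a) (hD b) (hD c)
  · intro a b _ _ hz
    apply hg
    apply h.ext _ _ (hD a) (hD b)
    intro z hzD
    obtain ⟨i, rfl⟩ := (hr z).1 hzD
    exact hz i trivial
  · intro a b _ _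
    exact h.low _ _ (hD a) (hD b)
  · intro b _
    obtain ⟨f, p, hp, hf⟩ := h.dfn _ (hD b)
    obtain ⟨p', rfl, hq'⟩ := Trn_list hr p hp
    refine ⟨f, p', hq', ?_⟩
    rintro z ⟨-, hz⟩
    rw [hiso b f (z :: p') (hcons b z p' hq' hz), List.map_cons]
    exact hf (g z) ⟨hD z, hz⟩
  · intro b _ f p hp
    obtain ⟨a, ha, hba, hz⟩ := h.cmp (g b) (hD b) f (p.map g) (by
      intro q hq
      obtain ⟨i, hi, rfl⟩ := List.mem_map.1 hq
      exact ⟨hD i, (hp i hi).2⟩)
    obtain ⟨i, rfl⟩ := (hr a).1 ha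
    refine ⟨i, trivial, hba, ?_⟩
    intro z _
    rw [hz (g z) (hD z)]
    constructor
    · rintro ⟨h1, h2⟩
      exact ⟨h1, (hiso b f (z :: p) (hcons b z p hp h1)).2 (by rw [List.map_cons]; exact h2)⟩
    · rintro ⟨h1, h2⟩
      refine ⟨h1, ?_⟩
      have := (hiso b f (z :: p) (hcons b z p hp h1)).1 h2
      rw [List.map_cons] at this
      exact this

end Pool.Agent.NIL
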