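import Pool.Agent.NIL.LvL
import Pool.Agent.NIL.CndB
import Pool.Agent.NIL.Trn
import Pool.Agent.NIL.Num

/-!
# QEx: if `V = L` then every real is the even part of an element of `Qs`

By `VeqL` and `Lc_mono`, `Lc_nm` there is `δ` with `rz x ∈ L_δ` and all `nm n ∈ L_δ` (`δ = max δ₀ ω`). `exists_Clsd`
(applied to `LS_Lc δ`, `C = {rz x} ∪ range nm`) and `Clsd_LS` give a countable `X ⊇ C`, `X ⊆ L_δ`, with
`LS (· ∈ X) (∈) W`, `W a b ↔ lev a < lev b`. `X` is infinite (`nm_inj`), so there is an injective `g : ℕ → ZFSet` with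
range `X` (`Set.Countable`, `Infinite`: `nonempty_denumerable`/`Denumerable.eqv`, or
`nonempty_equiv_of_countable`). `LS_transport` gives `LS All E' W'`. Let `y` be the real with even part `x` and odd
part coding `E' i j ↔ g i ∈ g j`, `W' i j ↔ lev (g i) < lev (g j)`, `mN y n a ↔ g a = nm n`, `mA y a ↔ g a = rz x`
(`fun k => if k % 2 = 0 then x (k / 2) else decide ...` by cases of `(k / 2) % 4`, `Nat.unpair`; so
`mE y = E'`, `mW y = W'` by `funext`, `propext`). `Cd y`: `num`: `nm n ∈ X`; `num0`: `mem_nm_zero`; `numS`: `mem_nm_succ` and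
injectivity of `g`; `rep`: `mem_rz`. `W'` is well-founded: `InvImage.wf` of the order of the ordinals.
-/

namespace Pool.Agent.NIL

open Cardinal Pool.Agent.NI

/-- the odd part of the code -/
noncomputable def QEx_od (x : Rl) (g : ℕ → ZFSet.{0}) : Rl := by
  classical
  exact fun j =>
    if j % 4 = 0 then decide (g (j / 4).unpair.1 ∈ g (j / 4).unpair.2)
    else if j % 4 = 1 then decide (lev (g (j / 4).unpair.1) < lev (g (j / 4).unpair.2))
    else if j % 4 = 2 then decide (g (j / 4).unpair.2 = nm (j / 4).unpair.1)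
    else decide (g (j / 4) = rz x)

/-- the code -/
noncomputable def QEx_y (x : Rl) (g : ℕ → ZFSet.{0}) : Rl := fun k =>
  if k % 2 = 0 then x (k / 2) else QEx_od x g (k / 2)

theorem QEx_ev (x : Rl) (g : ℕ → ZFSet.{0}) : ev (QEx_y x g) = x := by
  funext n
  unfold ev QEx_y
  have h1 : (2 * n) % 2 = 0 := by omega
  have h2 : (2 * n) / 2 = n := by omega
  rw [if_pos h1, h2]

theorem QEx_odd (x : Rl) (g : ℕ → ZFSet.{0}) : od (QEx_y x g) = QEx_od x g := by
  funext n
  unfold od QEx_y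
  have h1 : ¬ (2 * n + 1) % 2 = 0 := by omega
  have h2 : (2 * n + 1) / 2 = n := by omega
  rw [if_neg h1, h2]

theorem QEx_mE (x : Rl) (g : ℕ → ZFSet.{0}) : mE (QEx_y x g) = fun i j => g i ∈ g j := by
  funext a b
  apply propext
  unfold mE
  rw [QEx_odd]
  unfold QEx_od
  have h1 : (4 * Nat.pair a b) % 4 = 0 := by omega
  have h2 : (4 * Nat.pair a b) / 4 = Nat.pair a b := by omega
  rw [if_pos h1, h2, Nat.unpair_pair, @decide_eq_true_iff _ (Classical.propDecidable _)]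

theorem QEx_mW (x : Rl) (g : ℕ → ZFSet.{0}) : mW (QEx_y x g) = fun i j => lev (g i) < lev (g j) := by
  funext a b
  apply propext
  unfold mW
  rw [QEx_odd]
  unfold QEx_od
  have h0 : ¬ (4 * Nat.pair a b + 1) % 4 = 0 := by omega
  have h1 : (4 * Nat.pair a b + 1) % 4 = 1 := by omega
  have h2 : (4 * Nat.pair a b + 1) / 4 = Nat.pair a b := by omega
  rw [if_neg h0, if_pos h1, h2, Nat.unpair_pair]
  exact decide_eq_true_iff

theorem QEx_mN (x : Rl) (g : ℕ → ZFSet.{0}) (n a : ℕ) : mN (QEx_y x g) n a ↔ g a = nm n := by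
  unfold mN
  rw [QEx_odd]
  unfold QEx_od
  have h0 : ¬ (4 * Nat.pair n a + 2) % 4 = 0 := by omega
  have h1 : ¬ (4 * Nat.pair n a + 2) % 4 = 1 := by omega
  have h2 : (4 * Nat.pair n a + 2) % 4 = 2 := by omega
  have h3 : (4 * Nat.pair n a + 2) / 4 = Nat.pair n a := by omega
  rw [if_neg h0, if_neg h1, if_pos h2, h3, Nat.unpair_pair, @decide_eq_true_iff _ (Classical.propDecidable _)]

theorem QEx_mA (x : Rl) (g : ℕ → ZFSet.{0}) (a : ℕ) : mA (QEx_y x g) a ↔ g a = rz x := by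
  unfold mA
  rw [QEx_odd]
  unfold QEx_od
  have h0 : ¬ (4 * a + 3) % 4 = 0 := by omega
  have h1 : ¬ (4 * a + 3) % 4 = 1 := by omega
  have h2 : ¬ (4 * a + 3) % 4 = 2 := by omega
  have h3 : (4 * a + 3) / 4 = a := by omega
  rw [if_neg h0, if_neg h1, if_neg h2, h3, @decide_eq_true_iff _ (Classical.propDecidable _)]

theorem Qs_surj (hV : VeqL) (x : Rl) : ∃ y ∈ Qs, ev y = x := by
  classical
  obtain ⟨δ₀, h₀⟩ := hV (rz x)
  obtain ⟨δ, hδ⟩ : ∃ δ, δ = max δ₀ Ordinal.omega0 := ⟨_, rfl⟩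
  have hrz : Lc δ (rz x) := Lc_mono (by rw [hδ]; exact le_max_left _ _) h₀
  have hnm : ∀ n, Lc δ (nm n) := fun n => Lc_mono (by rw [hδ]; exact le_max_right _ _) (Lc_nm n)
  obtain ⟨X, hCX, hXc, hX⟩ := exists_Clsd (Lc δ) (fun a b : ZFSet.{0} => a ∈ b)
    (fun a b => lev a < lev b) (LS_Lc δ) (insert (rz x) (Set.range nm))
    ((Set.countable_range nm).insert _) (by
      rintro a (rfl | ⟨n, rfl⟩)
      · exact hrz
      · exact hnm n)
  have hLS := Clsd_LS _ _ _ (LS_Lc δ) X hX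
  have hnX : ∀ n, nm n ∈ X := fun n => hCX (Set.mem_insert_of_mem _ ⟨n, rfl⟩)
  have hrX : rz x ∈ X := hCX (Set.mem_insert _ _)
  have hinf : Infinite X := Infinite.of_injective (fun n => (⟨nm n, hnX n⟩ : X))
    (fun m n h => nm_inj (congrArg Subtype.val h))
  have hcnt : Countable X := hXc.to_subtype
  obtain ⟨hd⟩ := nonempty_denumerable X
  obtain ⟨g, hg⟩ : ∃ g : ℕ → ZFSet.{0}, g = fun n => ((Denumerable.eqv X).symm n).1 := ⟨_, rfl⟩
  have ginj : Function.Injective g := by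
    intro m n h
    rw [hg] at h
    exact (Denumerable.eqv X).symm.injective (Subtype.ext h)
  have grange : ∀ a, a ∈ X ↔ ∃ i, g i = a := by
    intro a
    constructor
    · intro ha
      refine ⟨Denumerable.eqv X ⟨a, ha⟩, ?_⟩
      rw [hg]
      simp
    · rintro ⟨i, rfl⟩
      rw [hg]
      exact ((Denumerable.eqv X).symm i).2
  have hT := LS_transport (fun a => a ∈ X) _ _ hLS g ginj grange
  refine ⟨QEx_y x g, ⟨⟨?_, ?_, ?_, ?_, ?_⟩, ?_⟩, QEx_ev x g⟩
  · rw [QEx_mE, QEx_mW]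
    exact hT
  · intro n
    obtain ⟨i, hi⟩ := (grange _).1 (hnX n)
    exact ⟨i, (QEx_mN x g n i).2 hi⟩
  · intro a ha z hz
    rw [QEx_mN] at ha
    rw [QEx_mE] at hz
    change g z ∈ g a at hz
    rw [ha] at hz
    exact mem_nm_zero _ hz
  · intro n a b ha hb z
    rw [QEx_mN] at ha hb
    rw [QEx_mE]
    change g z ∈ g b ↔ (g z ∈ g a ∨ z = a)
    rw [hb, mem_nm_succ, ← ha]
    constructor
    · rintro (h | h)
      · exact Or.inl h
      · exact Or.inr (ginj h)
    · rintro (h | h)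
      · exact Or.inl h
      · exact Or.inr (congrArg g h)
  · obtain ⟨i, hi⟩ := (grange _).1 hrX
    refine ⟨i, (QEx_mA x g i).2 hi, fun z => ?_⟩
    rw [QEx_mE, QEx_ev]
    change g z ∈ g i ↔ _
    rw [hi, mem_rz]
    constructor
    · rintro ⟨n, h1, h2⟩
      exact ⟨n, h1, (QEx_mN x g n z).2 h2⟩
    · rintro ⟨n, h1, h2⟩
      exact ⟨n, h1, (QEx_mN x g n z).1 h2⟩
  · rw [QEx_mW]
    exact InvImage.wf (fun i => lev (g i)) wellFounded_lt

end Pool.Agent.NIL
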