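import Pool.Agent.NIL.ColB
import Pool.Agent.NIL.CtL
import Pool.Agent.NIL.QEx

/-!
# CHL: `V = L` implies the continuum hypothesis

For `x : Rl` let `y ∈ Qs`, `ev y = x` (`Qs_surj`); by `Rk_bound_countable` (for `mW y` on `ℕ`) and `rep_RL` there is `δ < ω₁` with
`x ∈ RL δ`. So `Rl` is the union of the countable sets `RL δ`, `δ < ω₁` (`RL_countable`), and its cardinality is at
most `ℵ₁ * ℵ₀ = ℵ₁` (`Cardinal.mk_iUnion_le` or `Cardinal.mk_biUnion_le`, `Cardinal.mk_Iio_ordinal`, or choose for every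
real `x` its `δ(x)` and its number in an enumeration of `RL δ(x)`: an injection of `Rl` into `(Set.Iio ω₁) × ℕ`; mind
the universes: `Ordinal.{0} : Type 1`, use `Cardinal.lift` or `(Ordinal.omega 1).ToType : Type`). And
`ℵ₁ ≤ 2 ^ ℵ₀` (`Cardinal.aleph_one_le_continuum` or `Cardinal.cantor`).
-/

namespace Pool.Agent.NIL

open Cardinal Pool.Agent.NI

theorem CH_of_VeqL (hV : VeqL) : (2 : Cardinal.{0}) ^ (ℵ₀ : Cardinal.{0}) = Cardinal.aleph 1 := by
  have hRl : Cardinal.mk Rl = (2 : Cardinal.{0}) ^ (ℵ₀ : Cardinal.{0}) := by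
    simp [Rl]
  have hcov : ∀ x : Rl, ∃ i : (Ordinal.omega 1 : Ordinal.{0}).ToType, x ∈ RL (Ordinal.ToType.mk.symm i : Set.Iio (Ordinal.omega 1 : Ordinal.{0})).1 := by
    intro x
    obtain ⟨y, hy, rfl⟩ := Qs_surj hV x
    obtain ⟨δ, hδ, hδ'⟩ := Rk_bound_countable (mW y) hy.2
    refine ⟨Ordinal.ToType.mk ⟨δ, hδ⟩, ?_⟩
    rw [OrderIso.symm_apply_apply]
    exact rep_RL y hy δ hδ'
  apply le_antisymm
  · rw [← hRl]
    have huniv : (Set.univ : Set Rl) = ⋃ i : (Ordinal.omega 1 : Ordinal.{0}).ToType,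
        RL (Ordinal.ToType.mk.symm i : Set.Iio (Ordinal.omega 1 : Ordinal.{0})).1 := by
      ext x
      simp only [Set.mem_univ, Set.mem_iUnion, true_iff]
      exact hcov x
    rw [← Cardinal.mk_univ, huniv]
    refine (Cardinal.mk_iUnion_le _).trans ?_
    rw [Cardinal.mk_toType, Ordinal.card_omega]
    refine (mul_le_mul' le_rfl (ciSup_le' fun i => ?_)).trans
      (Cardinal.aleph_mul_aleph0 1).le
    exact Cardinal.mk_le_aleph0_iff.2 (RL_countable _ (Ordinal.ToType.mk.symm i).2).to_subtype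
  · exact Cardinal.aleph_one_le_continuum

end Pool.Agent.NIL
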