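import Pool.Agent.NIL.Core

/-!
# Clo: countable closures

`exists_closure`: let `X 0 = C`, `X (n + 1) = X n ∪ {F i p | p a list of elements of X n}`, `X = ⋃ n, X n`.
Countability: the set of the lists of elements of a countable set is countable (e.g. it is the image of
`List (X n)` under `List.map Subtype.val`, and `List` of a countable type is countable; `Set.countable_range`,
`Set.Countable.image`, `Set.countable_iUnion`). A finite list of elements of `X` is a list of elements of
some `X n` (the sets are increasing; induction on the list).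
-/

namespace Pool.Agent.NIL

open Cardinal Pool.Agent.NI

theorem exists_closure {α : Type*} {ι : Type} [Countable ι] (F : ι → List α → α) (C : Set α)
    (hC : C.Countable) :
    ∃ X : Set α, C ⊆ X ∧ X.Countable ∧ ∀ i (p : List α), (∀ q ∈ p, q ∈ X) → F i p ∈ X := by
  obtain ⟨Y, hY0, hYs⟩ : ∃ Y : ℕ → Set α, Y 0 = C ∧
      ∀ n, Y (n + 1) = Y n ∪ ⋃ i, F i '' {p | ∀ q ∈ p, q ∈ Y n} :=
    ⟨fun n => Nat.rec C (fun _ S => S ∪ ⋃ i, F i '' {p | ∀ q ∈ p, q ∈ S}) n, rfl, fun n => rfl⟩
  have hm : Monotone Y := monotone_nat_of_le_succ fun n => by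
    rw [hYs]
    exact Set.subset_union_left
  have hcnt : ∀ n, (Y n).Countable := by
    intro n
    induction n with
    | zero => rw [hY0]; exact hC
    | succ n ih =>
      rw [hYs]
      refine ih.union (Set.countable_iUnion fun i => Set.Countable.image ?_ _)
      have h1 := ih.to_subtype
      rw [← Set.range_list_map_coe]
      exact Set.countable_range _
  refine ⟨⋃ n, Y n, ?_, Set.countable_iUnion hcnt, ?_⟩
  · rw [← hY0]
    exact Set.subset_iUnion Y 0
  · intro i p hp
    have h1 : ∃ n, ∀ q ∈ p, q ∈ Y n := by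
      induction p with
      | nil => exact ⟨0, by simp⟩
      | cons a p ih =>
        obtain ⟨n, hn⟩ := ih fun q hq => hp q (List.mem_cons_of_mem _ hq)
        obtain ⟨m, hm'⟩ := Set.mem_iUnion.1 (hp a List.mem_cons_self)
        refine ⟨max n m, fun q hq => ?_⟩
        rcases List.mem_cons.1 hq with h | h
        · rw [h]
          exact hm (le_max_right _ _) hm'
        · exact hm (le_max_left _ _) (hn q h)
    obtain ⟨n, hn⟩ := h1
    refine Set.mem_iUnion.2 ⟨n + 1, ?_⟩
    rw [hYs]
    exact Or.inr (Set.mem_iUnion.2 ⟨i, p, hn, rfl⟩)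

end Pool.Agent.NIL
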