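import Pool.Agent.NIL.Core

/-!
# Hol: satisfaction and isomorphisms

* `holds_iso`: induction on `f`, for all `v`. Atomic: `(v.map g)[i]? = (v[i]?).map g` (`List.getElem?_map`),
  the values are elements of `v`, so they satisfy `D` (`List.mem_of_getElem?`). `all`: `h1`, `h2` and the induction
  hypothesis for `a :: v`.
* `holds_congr`: the special case `g = id` (apply `holds_iso` with `g = id`, `D' = D` rewritten; `List.map_id`): the
  truth value only depends on `E` on `D`, and on `D` up to equivalence.
-/

namespace Pool.Agent.NIL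

open Cardinal Pool.Agent.NI

theorem holds_iso {α β : Type*} (g : α → β) (D : α → Prop) (D' : β → Prop) (E : α → α → Prop)
    (E' : β → β → Prop) (h1 : ∀ a, D a → D' (g a)) (h2 : ∀ b, D' b → ∃ a, D a ∧ g a = b)
    (hE : ∀ a b, D a → D b → (E a b ↔ E' (g a) (g b)))
    (hi : ∀ a b, D a → D b → g a = g b → a = b)
    (f : SF) (v : List α) (hv : ∀ a ∈ v, D a) : f.holds E D v ↔ f.holds E' D' (v.map g) := by
  induction f generalizing v with
  | mem i j =>
    simp only [SF.holds, List.getElem?_map]
    constructor
    · rintro ⟨a, ha, b, hb, hab⟩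
      have ha' : D a := hv a (List.mem_of_getElem? ha)
      have hb' : D b := hv b (List.mem_of_getElem? hb)
      refine ⟨g a, ?_, g b, ?_, (hE a b ha' hb').1 hab⟩
      · rw [Option.mem_def] at ha ⊢
        rw [ha]
        rfl
      · rw [Option.mem_def] at hb ⊢
        rw [hb]
        rfl
    · rintro ⟨a, ha, b, hb, hab⟩
      rw [Option.mem_def, Option.map_eq_some_iff] at ha hb
      obtain ⟨a', ha, rfl⟩ := ha
      obtain ⟨b', hb, rfl⟩ := hb
      have ha' : D a' := hv a' (List.mem_of_getElem? ha)
      have hb' : D b' := hv b' (List.mem_of_getElem? hb)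
      exact ⟨a', ha, b', hb, (hE a' b' ha' hb').2 hab⟩
  | eq i j =>
    simp only [SF.holds, List.getElem?_map]
    constructor
    · rintro ⟨a, ha, b, hb, hab⟩
      refine ⟨g a, ?_, g b, ?_, by rw [hab]⟩
      · rw [Option.mem_def] at ha ⊢
        rw [ha]
        rfl
      · rw [Option.mem_def] at hb ⊢
        rw [hb]
        rfl
    · rintro ⟨a, ha, b, hb, hab⟩
      rw [Option.mem_def, Option.map_eq_some_iff] at ha hb
      obtain ⟨a', ha, rfl⟩ := ha
      obtain ⟨b', hb, rfl⟩ := hb
      have ha' : D a' := hv a' (List.mem_of_getElem? ha)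
      have hb' : D b' := hv b' (List.mem_of_getElem? hb)
      exact ⟨a', ha, b', hb, hi a' b' ha' hb' hab⟩
  | neg f ih =>
    simp only [SF.holds]
    rw [ih v hv]
  | and f f' ih ih' =>
    simp only [SF.holds]
    rw [ih v hv, ih' v hv]
  | all f ih =>
    simp only [SF.holds]
    constructor
    · intro h b hb
      obtain ⟨a, ha, rfl⟩ := h2 b hb
      have h3 := (ih (a :: v) (by
        intro c hc
        rcases List.mem_cons.1 hc with rfl | hc
        · exact ha
        · exact hv c hc)).1 (h a ha)
      exact h3
    · intro h a ha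
      exact (ih (a :: v) (by
        intro c hc
        rcases List.mem_cons.1 hc with rfl | hc
        · exact ha
        · exact hv c hc)).2 (h (g a) (h1 a ha))

theorem holds_congr {α : Type*} (E : α → α → Prop) (D D' : α → Prop) (h : ∀ a, D a ↔ D' a)
    (f : SF) (v : List α) : f.holds E D v ↔ f.holds E D' v := by
  have hD : D = D' := by
    funext a
    exact propext (h a)
  rw [hD]

end Pool.Agent.NIL
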