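import Pool.Agent.NIL.Core

/-!
# LvB: basic facts on the constructible hierarchy

`Lc α x` unfolds by `rw [Lc]` (or `Lc.eq_1`).
* `Lc_mono`: immediate. `Lc_trans`: if `x ∈ L_α` by `β < α` then its elements are in `L_β`, so in `L_α`.
* `Lc_succ_of`: `Lc α z` gives `β < α` with `Lc (β + 1) z` (the same `β, f, p`).
* `Lc_iff_lev`: `→`: `Lc δ z` gives `β < δ` with `Lc (β + 1) z`, so `lev z ≤ β` (`csInf_le'`). `←`: the set
  `{β | Lc (β + 1) z}` is not empty (`Lc_succ_of`), so `Lc (lev z + 1) z` (`csInf_mem`); `lev z + 1 ≤ δ`.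
* `lev_def`: `Lc (lev z + 1) z` gives `β < lev z + 1` with the data; `Lc (β + 1) z`, so `lev z ≤ β`, `β = lev z`.
-/

namespace Pool.Agent.NIL

open Cardinal Pool.Agent.NI

theorem Lc_mono {α β : Ordinal.{0}} (h : α ≤ β) {x : ZFSet.{0}} (hx : Lc α x) : Lc β x := by
  rw [Lc] at hx ⊢
  obtain ⟨β', hβ', r⟩ := hx
  exact ⟨β', hβ'.trans_le h, r⟩

theorem Lc_trans {α : Ordinal.{0}} {x : ZFSet.{0}} (hx : Lc α x) {z : ZFSet.{0}} (hz : z ∈ x) :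
    Lc α z := by
  rw [Lc] at hx
  obtain ⟨β, hβ, h1, _⟩ := hx
  exact Lc_mono hβ.le (h1 z hz)

theorem LvB_succ {α : Ordinal.{0}} {z : ZFSet.{0}} (h : Lc α z) :
    ∃ β < α, Lc (β + 1) z := by
  rw [Lc] at h
  obtain ⟨β, hβ, r⟩ := h
  refine ⟨β, hβ, ?_⟩
  rw [Lc]
  exact ⟨β, by rw [← Order.succ_eq_add_one]; exact Order.lt_succ β, r⟩

theorem LvB_lev {α : Ordinal.{0}} {z : ZFSet.{0}} (h : Lc α z) : Lc (lev z + 1) z := by
  obtain ⟨β, _, hβ⟩ := LvB_succ h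
  exact csInf_mem (s := {β | Lc (β + 1) z}) ⟨β, hβ⟩

theorem Lc_iff_lev {α : Ordinal.{0}} {z : ZFSet.{0}} (h : Lc α z) (δ : Ordinal.{0}) :
    Lc δ z ↔ lev z < δ := by
  constructor
  · intro hδ
    obtain ⟨β, hβ, h1⟩ := LvB_succ hδ
    exact lt_of_le_of_lt (csInf_le' h1) hβ
  · intro hδ
    refine Lc_mono ?_ (LvB_lev h)
    rw [← Order.succ_eq_add_one]
    exact Order.succ_le_of_lt hδ

theorem lev_def {α : Ordinal.{0}} {z : ZFSet.{0}} (h : Lc α z) :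
    (∀ w ∈ z, Lc (lev z) w) ∧ ∃ (f : SF) (p : List ZFSet.{0}), (∀ q ∈ p, Lc (lev z) q) ∧
      ∀ w, Lc (lev z) w → (w ∈ z ↔ f.holds (fun a b => a ∈ b) (Lc (lev z)) (w :: p)) := by
  have h1 := LvB_lev h
  have h2 := h1
  rw [Lc] at h2
  obtain ⟨β, hβ, r⟩ := h2
  have h3 : Lc (β + 1) z := by
    rw [Lc]
    exact ⟨β, by rw [← Order.succ_eq_add_one]; exact Order.lt_succ β, r⟩
  have h4 : lev z ≤ β := csInf_le' h3
  have h5 : β ≤ lev z := by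
    rw [← Order.succ_eq_add_one] at hβ
    exact Order.lt_succ_iff.1 hβ
  have h6 : β = lev z := le_antisymm h5 h4
  rw [h6] at r
  exact r

end Pool.Agent.NIL
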