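import Pool.Agent.NIL.RkW
import Pool.Agent.NIL.Hol
import Pool.Agent.NIL.LvB

/-!
# ColA: the collapse of a well-founded level structure

* `mem_col`: `WellFounded.fix_eq`, `ZFSet.mem_range`.
* `col_inj`: well-founded induction on `a` (for all `b`): let `col a = col b`. If `E z a` then `col z ∈ col b`, so
  `col z = col z'` with `E z' b`; by the induction hypothesis for `z`, `z = z'`, so `E z b`. If `E z' b` then
  `col z' ∈ col a`, `col z' = col z` with `E z a`, `z = z'` by the induction hypothesis for `z`. So `a`, `b` have the same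
  elements: `LS.ext`.
* `col_Lc`: induction on `β`. Let `Rv W β b`.
  `→`: `Lc β Y` gives `γ < β`, `f`, `p` with `Y ⊆ L_γ` defined by `f, p` in `L_γ`. Let `W c b`, `Rv W γ c` (`Rv_below`). By the
  induction hypothesis `L_γ` is the set of the `col a`, `W a c`. `p = p'.map col` for a list `p'` of numbers below `c`.
  `LS.cmp c f p'` gives `a` with `¬ W c a` and `E z a ↔ (W z c ∧ f.holds E (Low All W c) (z :: p'))`. By `holds_iso`
  (`g = col`, `D = Low All W c`, `D' = Lc γ`; note `E z z' ↔ col z ∈ col z'` by `mem_col` and `col_inj`) `col a = Y`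
  (`ZFSet.ext`). `W a b`: `LS.neg` applied to `W c b` gives `W c a ∨ W a b`.
  `←`: this is `col_self` for `a` (with the induction hypothesis as in its proof; it may be convenient to prove
  first the lemma: if the equivalence holds at `γ` for `a` with `Rv W γ a`, then `Lc (γ + 1) (col a)`), and `γ < β`.
* `col_self`: `Rv W γ a`: `LS.dfn a` gives `f, p`; elements of `col a` are `col z` with `E z a`, so `W z a` (`low`), so
  `Lc γ (col z)` by `col_Lc`; the formula `f` with parameters `p.map col` defines `col a` in `L_γ` by `holds_iso`.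
-/

namespace Pool.Agent.NIL

open Cardinal Pool.Agent.NI

/-- The collapse. -/
noncomputable def col (E : ℕ → ℕ → Prop) (hE : WellFounded E) : ℕ → ZFSet.{0} :=
  hE.fix fun b π => ZFSet.range fun a : {a : ℕ // E a b} => π a.1 a.2

theorem mem_col (E : ℕ → ℕ → Prop) (hE : WellFounded E) (b : ℕ) (z : ZFSet.{0}) :
    z ∈ col E hE b ↔ ∃ a, E a b ∧ col E hE a = z := by
  have h1 : col E hE b = ZFSet.range fun a : {a : ℕ // E a b} => col E hE a.1 := by
    unfold col
    rw [WellFounded.fix_eq]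
  rw [h1, ZFSet.mem_range]
  constructor
  · rintro ⟨a, ha⟩
    exact ⟨a.1, a.2, ha⟩
  · rintro ⟨a, ha, hz⟩
    exact ⟨⟨a, ha⟩, hz⟩

theorem wf_E {E W : ℕ → ℕ → Prop} (h : LS All E W) (hW : WellFounded W) : WellFounded E :=
  Subrelation.wf (fun {a b} hab => h.low a b trivial trivial hab) hW

theorem col_inj {E W : ℕ → ℕ → Prop} (h : LS All E W) (hE : WellFounded E) :
    Function.Injective (col E hE) := by
  intro a
  induction a using hE.induction with
  | _ a ih =>
    intro b hab
    refine h.ext a b trivial trivial fun z _ => ?_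
    constructor
    · intro hz
      have h1 : col E hE z ∈ col E hE b := by
        rw [← hab]
        exact (mem_col E hE a _).2 ⟨z, hz, rfl⟩
      obtain ⟨z', hz', h2⟩ := (mem_col E hE b _).1 h1
      have h3 : z = z' := ih z hz h2.symm
      rw [h3]
      exact hz'
    · intro hz
      have h1 : col E hE z ∈ col E hE a := by
        rw [hab]
        exact (mem_col E hE b _).2 ⟨z, hz, rfl⟩
      obtain ⟨z', hz', h2⟩ := (mem_col E hE a _).1 h1
      have h3 : z' = z := ih z' hz' h2
      rw [← h3]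
      exact hz'

theorem ColA_E {E W : ℕ → ℕ → Prop} (h : LS All E W) (hE : WellFounded E) (a b : ℕ) :
    E a b ↔ col E hE a ∈ col E hE b := by
  rw [mem_col]
  constructor
  · intro hab
    exact ⟨a, hab, rfl⟩
  · rintro ⟨a', ha', he⟩
    have := col_inj h hE he
    rw [← this]
    exact ha'

theorem ColA_iso {E W : ℕ → ℕ → Prop} (h : LS All E W) (hE : WellFounded E)
    (γ : Ordinal.{0}) (c : ℕ) (hc : ∀ Y, Lc γ Y ↔ ∃ a, W a c ∧ col E hE a = Y)
    (f : SF) (v : List ℕ) (hv : ∀ a ∈ v, W a c) :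
    f.holds E (Low All W c) v ↔ f.holds (fun a b => a ∈ b) (Lc γ) (v.map (col E hE)) := by
  refine holds_iso (col E hE) (Low All W c) (Lc γ) E (fun a b => a ∈ b) ?_ ?_ ?_ ?_ f v ?_
  · intro a ha
    exact (hc _).2 ⟨a, ha.2, rfl⟩
  · intro Y hY
    obtain ⟨a, ha, he⟩ := (hc _).1 hY
    exact ⟨a, ⟨trivial, ha⟩, he⟩
  · intro a b _ _
    exact ColA_E h hE a b
  · intro a b _ _ he
    exact col_inj h hE he
  · intro a ha
    exact ⟨trivial, hv a ha⟩

theorem ColA_self {E W : ℕ → ℕ → Prop} (h : LS All E W) (hE : WellFounded E)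
    (γ : Ordinal.{0}) (a : ℕ) (hc : ∀ Y, Lc γ Y ↔ ∃ z, W z a ∧ col E hE z = Y) :
    Lc (γ + 1) (col E hE a) := by
  obtain ⟨f, p, hp, hf⟩ := h.dfn a trivial
  rw [Lc]
  refine ⟨γ, Order.lt_add_one_iff.2 le_rfl, ?_, f, p.map (col E hE), ?_, ?_⟩
  · intro z hz
    obtain ⟨z', hz', he⟩ := (mem_col E hE a z).1 hz
    exact (hc z).2 ⟨z', h.low z' a trivial trivial hz', he⟩
  · intro q hq
    obtain ⟨q', hq', he⟩ := List.mem_map.1 hq
    exact (hc q).2 ⟨q', (hp q' hq').2, he⟩
  · intro z hz
    obtain ⟨z', hz', he⟩ := (hc z).1 hz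
    rw [← he, ← ColA_E h hE, hf z' ⟨trivial, hz'⟩]
    have h1 := ColA_iso h hE γ a hc f (z' :: p) (by
      intro q hq
      rcases List.mem_cons.1 hq with h2 | h2
      · rw [h2]; exact hz'
      · exact (hp q h2).2)
    rw [List.map_cons] at h1
    exact h1

theorem ColA_lift {E W : ℕ → ℕ → Prop} (hE : WellFounded E)
    (γ : Ordinal.{0}) (c : ℕ) (hc : ∀ Y, Lc γ Y ↔ ∃ a, W a c ∧ col E hE a = Y)
    (p : List ZFSet.{0}) (hp : ∀ q ∈ p, Lc γ q) :
    ∃ p' : List ℕ, (∀ q ∈ p', W q c) ∧ p'.map (col E hE) = p := by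
  induction p with
  | nil => exact ⟨[], by simp, rfl⟩
  | cons q p ih =>
    obtain ⟨p', h1, h2⟩ := ih fun q hq => hp q (List.mem_cons_of_mem _ hq)
    obtain ⟨a, ha, he⟩ := (hc q).1 (hp q List.mem_cons_self)
    refine ⟨a :: p', ?_, ?_⟩
    · intro q hq
      rcases List.mem_cons.1 hq with h3 | h3
      · rw [h3]; exact ha
      · exact h1 q h3
    · rw [List.map_cons, he, h2]

theorem col_Lc {E W : ℕ → ℕ → Prop} (h : LS All E W) (hW : WellFounded W) (hE : WellFounded E)
    (β : Ordinal.{0}) (b : ℕ) (hb : Rv W β b) (Y : ZFSet.{0}) :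
    Lc β Y ↔ ∃ a, W a b ∧ col E hE a = Y := by
  induction β using WellFoundedLT.induction generalizing b Y with
  | _ β IH =>
  constructor
  · intro hY
    rw [Lc] at hY
    obtain ⟨γ, hγ, hsub, f, p, hp, hf⟩ := hY
    obtain ⟨c, hcb, hc⟩ := Rv_below h hW b β γ hb hγ
    have hL : ∀ Y, Lc γ Y ↔ ∃ a, W a c ∧ col E hE a = Y := fun Y => IH γ hγ c hc Y
    obtain ⟨p', hp', hpp⟩ := ColA_lift hE γ c hL p hp
    obtain ⟨a, -, hca, ha⟩ := h.cmp c trivial f p' fun q hq => ⟨trivial, hp' q hq⟩
    have hiso : ∀ z', W z' c → (f.holds E (Low All W c) (z' :: p') ↔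
        f.holds (fun a b => a ∈ b) (Lc γ) (col E hE z' :: p)) := by
      intro z' hz'
      have h1 := ColA_iso h hE γ c hL f (z' :: p') (by
        intro q hq
        rcases List.mem_cons.1 hq with h2 | h2
        · rw [h2]; exact hz'
        · exact hp' q h2)
      rw [List.map_cons, hpp] at h1
      exact h1
    refine ⟨a, ?_, ?_⟩
    · rcases h.neg c a b trivial trivial trivial hcb with h1 | h1
      · exact absurd h1 hca
      · exact h1
    · apply ZFSet.ext
      intro z
      rw [mem_col]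
      constructor
      · rintro ⟨z', hz', rfl⟩
        obtain ⟨h1, h2⟩ := (ha z' trivial).1 hz'
        have h3 : Lc γ (col E hE z') := (hL _).2 ⟨z', h1, rfl⟩
        exact (hf _ h3).2 ((hiso z' h1).1 h2)
      · intro hz
        have h3 := hsub z hz
        obtain ⟨z', h1, h2⟩ := (hL z).1 h3
        refine ⟨z', (ha z' trivial).2 ⟨h1, (hiso z' h1).2 ?_⟩, h2⟩
        rw [h2]
        exact (hf z h3).1 hz
  · rintro ⟨a, hab, rfl⟩
    obtain ⟨γ, hγ⟩ := Rv_exists W hW a
    have hlt := Rv_lt W a b γ β hγ hb hab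
    have h1 := ColA_self h hE γ a fun Y => IH γ hlt a hγ Y
    exact Lc_mono (Order.add_one_le_of_lt hlt) h1

theorem col_self {E W : ℕ → ℕ → Prop} (h : LS All E W) (hW : WellFounded W) (hE : WellFounded E)
    (γ : Ordinal.{0}) (a : ℕ) (ha : Rv W γ a) : Lc (γ + 1) (col E hE a) :=
  ColA_self h hE γ a fun Y => col_Lc h hW hE γ a ha Y

end Pool.Agent.NIL
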