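import Pool.Agent.NIL.ColA
import Pool.Agent.NIL.Num

/-!
# ColB: the real represented in a coded level structure

Let `y ∈ Qs`, `E = mE y`, `W = mW y`, `hE = wf_E`. By induction on `n`: if `mN y n a` then `col a = nm n` (`ZFSet.ext`,
`mem_col`, `Cd.num0`, `Cd.numS` with `Cd.num n`, `mem_nm_zero`, `mem_nm_succ`). Let `a` be the number of `Cd.rep`: `col a = rz (ev y)`
(`mem_rz`; for `ev y n = true` take `z` with `mN y n z`, `Cd.num`). Let `Rv W r a` (`Rv_exists`); `Lc (r + 1) (col a)` by
`col_self`, and `r < δ` since `¬ Rk W δ a` (`Rk_iff_le`), so `Lc δ (rz (ev y))` by `Lc_mono`.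
-/

namespace Pool.Agent.NIL

open Cardinal Pool.Agent.NI

theorem rep_RL (y : Rl) (hy : y ∈ Qs) (δ : Ordinal.{0}) (hδ : ∀ a, ¬ Rk (mW y) δ a) :
    ev y ∈ RL δ := by
  obtain ⟨hcd, hwf⟩ := hy
  have hE : WellFounded (mE y) := wf_E hcd.ls hwf
  have hnum : ∀ n a, mN y n a → col (mE y) hE a = nm n := by
    intro n
    induction n with
    | zero =>
      intro a ha
      apply ZFSet.ext
      intro z
      constructor
      · intro hz
        rw [mem_col] at hz
        obtain ⟨c, hc, -⟩ := hz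
        exact absurd hc (hcd.num0 a ha c)
      · intro hz
        exact absurd hz (mem_nm_zero z)
    | succ n ih =>
      intro b hb
      obtain ⟨a, ha⟩ := hcd.num n
      apply ZFSet.ext
      intro z
      rw [mem_col, mem_nm_succ]
      constructor
      · rintro ⟨c, hc, rfl⟩
        rcases (hcd.numS n a b ha hb c).1 hc with h | rfl
        · left
          rw [← ih a ha, mem_col]
          exact ⟨c, h, rfl⟩
        · right
          exact ih c ha
      · rintro (hz | rfl)
        · rw [← ih a ha, mem_col] at hz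
          obtain ⟨c, hc, rfl⟩ := hz
          exact ⟨c, (hcd.numS n a b ha hb c).2 (Or.inl hc), rfl⟩
        · exact ⟨a, (hcd.numS n a b ha hb a).2 (Or.inr rfl), ih a ha⟩
  obtain ⟨a, -, ha⟩ := hcd.rep
  have hrz : col (mE y) hE a = rz (ev y) := by
    apply ZFSet.ext
    intro z
    rw [mem_col, mem_rz]
    constructor
    · rintro ⟨c, hc, rfl⟩
      obtain ⟨n, hn, hnc⟩ := (ha c).1 hc
      exact ⟨n, hn, hnum n c hnc⟩
    · rintro ⟨n, hn, rfl⟩
      obtain ⟨c, hc⟩ := hcd.num n
      exact ⟨c, (ha c).2 ⟨n, hn, hc⟩, hnum n c hc⟩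
  obtain ⟨r, hr⟩ := Rv_exists (mW y) hwf a
  have h1 := col_self hcd.ls hwf hE r a hr
  have h2 : r < δ := by
    by_contra hc
    exact hδ a ((Rk_iff_le (mW y) a r δ hr).2 (not_lt.1 hc))
  show Lc δ (rz (ev y))
  rw [← hrz]
  exact Lc_mono (Order.succ_le_of_lt h2) h1

end Pool.Agent.NIL
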