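import Pool.Agent.NIL.Defs

/-!
# The objects of the proof

`LS D E W`: level structures with domain `D`, membership relation `E`; `W a b` says that the level of
`a` is lower than the level of `b`. The levels `L_δ` are level structures (`W a b ↔ lev a < lev b`), and
level structures with domain `ℕ` and well-founded `W` are (isomorphic to) countable levels `L_δ`.
-/

namespace Pool.Agent.NIL

open Cardinal Pool.Agent.NI

/-- The lower part of the level structure given by `b`. -/
def Low {α : Type*} (D : α → Prop) (W : α → α → Prop) (b a : α) : Prop := D a ∧ W a b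

/-- Level structures. -/
structure LS {α : Type*} (D : α → Prop) (E W : α → α → Prop) : Prop where
  irr : ∀ a, D a → ¬ W a a
  tra : ∀ a b c, D a → D b → D c → W a b → W b c → W a c
  neg : ∀ a b c, D a → D b → D c → W a c → W a b ∨ W b c
  ext : ∀ a b, D a → D b → (∀ z, D z → (E z a ↔ E z b)) → a = b
  low : ∀ a b, D a → D b → E a b → W a b
  dfn : ∀ b, D b → ∃ (f : SF) (p : List α), (∀ q ∈ p, Low D W b q) ∧
    ∀ z, Low D W b z → (E z b ↔ f.holds E (Low D W b) (z :: p))
  cmp : ∀ b, D b → ∀ (f : SF) (p : List α), (∀ q ∈ p, Low D W b q) →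
    ∃ a, D a ∧ ¬ W b a ∧ ∀ z, D z → (E z a ↔ (W z b ∧ f.holds E (Low D W b) (z :: p)))

/-! ### Reals as sets -/

/-- The numerals. -/
noncomputable def nm : ℕ → ZFSet.{0}
  | 0 => ∅
  | n + 1 => insert (nm n) (nm n)

/-- The real `x` as a set: the set of the `nm n`, `x n = true`. -/
noncomputable def rz (x : Rl) : ZFSet.{0} := ZFSet.range fun n : {n : ℕ // x n = true} => nm n.1

/-- The least ordinal `β` with `x ∈ L_{β+1}`. -/
noncomputable def lev (x : ZFSet.{0}) : Ordinal.{0} := sInf {β | Lc (β + 1) x}

/-- The reals of the level `L_δ`. -/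
def RL (δ : Ordinal.{0}) : Set Rl := {x | Lc δ (rz x)}

/-! ### Coded level structures

A real `y` is the join of two reals: the even part `ev y` and the odd part, which codes two relations on
`ℕ`, a map `ℕ → ℕ` and a number. -/

/-- The even part. -/
def ev (y : Rl) : Rl := fun n => y (2 * n)

/-- The odd part. -/
def od (y : Rl) : Rl := fun n => y (2 * n + 1)

/-- The coded membership relation. -/
def mE (y : Rl) (a b : ℕ) : Prop := od y (4 * Nat.pair a b) = true

/-- The coded level relation. -/
def mW (y : Rl) (a b : ℕ) : Prop := od y (4 * Nat.pair a b + 1) = true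

/-- The graph of the coded function of numerals: `a` is the `n`-th numeral. -/
def mN (y : Rl) (n a : ℕ) : Prop := od y (4 * Nat.pair n a + 2) = true

/-- The coded number which represents the real `ev y`. -/
def mA (y : Rl) (a : ℕ) : Prop := od y (4 * a + 3) = true

/-- The universal domain. -/
def All (_ : ℕ) : Prop := True

/-- `y` codes a level structure on `ℕ` in which the real `ev y` is represented. -/
structure Cd (y : Rl) : Prop where
  ls : LS All (mE y) (mW y)
  num : ∀ n, ∃ a, mN y n a
  num0 : ∀ a, mN y 0 a → ∀ z, ¬ mE y z a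
  numS : ∀ n a b, mN y n a → mN y (n + 1) b → ∀ z, mE y z b ↔ (mE y z a ∨ z = a)
  rep : ∃ a, mA y a ∧ ∀ z, mE y z a ↔ ∃ n, ev y n = true ∧ mN y n z

/-- The set `Q`. -/
def Qs : Set Rl := {y | Cd y ∧ WellFounded (mW y)}

/-! ### Kondo's uniformization -/

/-- `g` maps the tree of `y'` below `s` to the tree of `y` below `t`. -/
def Mp (B : List ℕ → List Bool → Prop) (y' y : Rl) (s t : List ℕ) (g : List ℕ → List ℕ) : Prop :=
  g s = t ∧ ∀ u a, s <+: u → B (u ++ [a]) (pre y' (u.length + 1)) → ChR B y (g (u ++ [a])) (g u)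

/-- The node with the number `n`. -/
def nd (n : ℕ) : List ℕ := Denumerable.ofNat (List ℕ) n

/-- The rank of the node with number `i` in the tree of `y'` is at most the rank of the node with number `i` in the
tree of `y`. -/
def Le (B : List ℕ → List Bool → Prop) (y' y : Rl) (i : ℕ) : Prop := ∃ g, Mp B y' y (nd i) (nd i) g

/-- The same with `<`. -/
def Lt (B : List ℕ → List Bool → Prop) (y' y : Rl) (i : ℕ) : Prop :=
  ∃ g t, ChR B y t (nd i) ∧ Mp B y' y (nd i) t g

/-- There is a better real than `y` with the same even part. -/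
def Bet (B : List ℕ → List Bool → Prop) (y : Rl) : Prop :=
  ∃ (n : ℕ) (y' : Rl), ev y' = ev y ∧ (∀ i < n, y' i = y i ∧ Le B y' y i) ∧
    (Lt B y' y n ∨ (Le B y' y n ∧ y' n = false ∧ y n = true))

end Pool.Agent.NIL
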