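import Pool.Agent.NI.Core

/-!
# MP_053ed5_lc: the constructible hierarchy and the axiom `V = L`

The sets are the elements of `ZFSet.{0}`.
-/

namespace Pool.Agent.NIL

open Cardinal Pool.Agent.NI

/-! ### The formulas of the language of set theory -/

/-- The formulas of the language of set theory (with de Bruijn indices: `all` binds the variable `0`). -/
inductive SF : Type
  | mem (i j : ℕ) : SF
  | eq (i j : ℕ) : SF
  | neg (f : SF) : SF
  | and (f g : SF) : SF
  | all (f : SF) : SF

/-- The formula `f` holds at the values `v` in the structure with domain `D` and membership relation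
`E`. (The variable `i` has the value `v[i]`; atomic formulas with a variable without value are false.) -/
def SF.holds {α : Type*} (E : α → α → Prop) (D : α → Prop) : SF → List α → Prop
  | SF.mem i j, v => ∃ a ∈ v[i]?, ∃ b ∈ v[j]?, E a b
  | SF.eq i j, v => ∃ a ∈ v[i]?, ∃ b ∈ v[j]?, a = b
  | SF.neg f, v => ¬ f.holds E D v
  | SF.and f g, v => f.holds E D v ∧ g.holds E D v
  | SF.all f, v => ∀ a, D a → f.holds E D (a :: v)

/-! ### The constructible hierarchy -/

/-- `Lc α x`: the set `x` belongs to the level `L_α` of the constructible hierarchy, i.e. for some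
`β < α` it is a subset of `L_β` which is definable with parameters in the structure `(L_β, ∈)`. -/
def Lc (α : Ordinal.{0}) (x : ZFSet.{0}) : Prop :=
  ∃ β : Ordinal.{0}, ∃ _ : β < α, (∀ z ∈ x, Lc β z) ∧
    ∃ (f : SF) (p : List ZFSet.{0}), (∀ q ∈ p, Lc β q) ∧
      ∀ z, Lc β z → (z ∈ x ↔ f.holds (fun a b => a ∈ b) (Lc β) (z :: p))
termination_by α

/-- The axiom of constructibility `V = L`. -/
def VeqL : Prop := ∀ x : ZFSet.{0}, ∃ α : Ordinal.{0}, Lc α x

end Pool.Agent.NIL
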