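import Pool.Agent.NIL.Core
import Pool.Agent.NI.Cod

/-!
# Evn: the even part is computable

The code `comp oracle dbl`, where `dbl` computes `n ↦ 2 * n`: `comp (prec zero (comp succ (comp succ (comp right right)))) (pair zero id)`
with `id = pair left right` (`Nat.pair_unpair`): `prec f g` at `pair a n`: `f` at `a` for `n = 0`, and the step gets
`pair a (pair m i)`; so `right (right _) = i` and the value is `i + 2`. `eval` of it at `n` is `Part.some (2 * n)`, by induction
on `n`. Then `ofNat_surj` gives the index.
-/

namespace Pool.Agent.NIL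

open Cardinal Pool.Agent.NI

theorem Evn_prec (y : Rl) (n : ℕ) :
    (OCode.prec OCode.zero (OCode.comp OCode.succ (OCode.comp OCode.succ
      (OCode.comp OCode.right OCode.right)))).eval y (Nat.pair 0 n) = Part.some (2 * n) := by
  rw [OCode.eval]
  simp only [Nat.unpair_pair]
  induction n with
  | zero => simp [OCode.eval]
  | succ n ih =>
    simp only [ih]
    simp [OCode.eval]
    ring_nf

theorem ev_TRed (y : Rl) : TRed (ev y) y := by
  obtain ⟨i, hi⟩ := ofNat_surj (OCode.comp OCode.oracle
    (OCode.comp (OCode.prec OCode.zero (OCode.comp OCode.succ (OCode.comp OCode.succ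
      (OCode.comp OCode.right OCode.right)))) (OCode.pair OCode.zero (OCode.pair OCode.left OCode.right))))
  refine ⟨i, fun n => ?_⟩
  unfold Phi
  rw [hi]
  have h1 : (OCode.pair OCode.zero (OCode.pair OCode.left OCode.right)).eval y n =
      Part.some (Nat.pair 0 n) := by
    simp [OCode.eval]
  have hcomp : ∀ (f g : OCode) (n a b : ℕ), g.eval y n = Part.some a → f.eval y a = Part.some b →
      (OCode.comp f g).eval y n = Part.some b := by
    intro f g n a b h1 h2
    have h3 : (OCode.comp f g).eval y n = Part.bind (g.eval y n) (f.eval y) := by rw [OCode.eval]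
    rw [h3, h1]
    exact (Part.bind_some a (f.eval y)).trans h2
  have horac : OCode.oracle.eval y (2 * n) = Part.some (y (2 * n)).toNat := by rw [OCode.eval]
  exact hcomp _ _ n (2 * n) _ (hcomp _ _ n _ _ h1 (Evn_prec y n)) horac

end Pool.Agent.NIL
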