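import Pool.Agent.NIL.Core

/-!
# KAna: the set of the reals which are not best is analytic

Code a map `g : List ℕ → List ℕ` by a map `G : ℕ → ℕ`: `g u = nd (G (encode u))`; every `g` is of this form. Let
`T = Rl × (Rl × (ℕ → ℕ → ℕ))` (a Polish space with its Borel σ-algebra). `Bet B y` holds iff there are `n : ℕ`, `t : List ℕ`
(or `t : ℕ`) and `(y', G)` such that `M n t (y, y', G)`: `ev y' = ev y`; for all `i < n`: `y' i = y i` and
`Mp B y' y (nd i) (nd i) (g_i)`, `g_i u = nd (G i (encode u))`; and [`ChR B y t (nd n)` and `Mp B y' y (nd n) t g_n`] or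
[`Mp B y' y (nd n) (nd n) g_n` and `y' n = false`, `y n = true`]. For fixed `n, t` the set of the `(y, y', G)` with `M n t` is
measurable: it is a countable intersection/union of sets which depend on finitely many coordinates: a
condition like `B (u ++ [a]) (pre y' (u.length + 1))` is a condition on the value of the continuous (or measurable)
map `y' ↦ pre y' (u.length + 1)` to the countable type `List Bool` (with the σ-algebra `⊤`), or: the set
`{y' | B s (pre y' k)}` is the union over the finitely many `l : List Bool` (or all `l`, `countable`) with `B s l` of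
`{y' | pre y' k = l}`, and `{y' | pre y' k = l}` is a finite intersection of coordinate conditions (measurable; for
instance by induction on `k`, or because it is clopen). `ChR B y (nd (G i m')) (nd (G i m))`: countable union over the values
of `G i m'`, `G i m`. Then `MeasurableSet.analyticSet`, `AnalyticSet.image_of_continuous` (`Prod.fst`), `AnalyticSet.iUnion` over
`n` and `t`.
-/

namespace Pool.Agent.NIL

open Cardinal Pool.Agent.NI

theorem KAna_pre (k : ℕ) (P : List Bool → Prop) : Measurable fun y : Rl => P (pre y k) := by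
  have h1 : Measurable fun y : Rl => fun i : Fin k => y i :=
    measurable_pi_lambda _ fun i => measurable_pi_apply (i : ℕ)
  have h2 : MeasurableSet {v : Fin k → Bool | P (List.ofFn v)} := Set.Finite.measurableSet (Set.toFinite _)
  have h3 : Measurable fun y : Rl => P (List.ofFn fun i : Fin k => y i) := by
    rw [← measurableSet_setOfPred]
    exact h1 h2
  have h4 : ∀ y : Rl, pre y k = List.ofFn fun i : Fin k => y i := by
    intro y
    unfold pre
    apply List.ext_getElem
    · simp
    · intro n h h'
      simp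
  simpa only [h4] using h3

/-- the space of the witnesses -/
abbrev KAnaT : Type := Rl × (Rl × (ℕ → ℕ → ℕ))

theorem KAna_ChR (B : List ℕ → List Bool → Prop) (q p : List ℕ) :
    Measurable fun x : KAnaT => ChR B x.1 q p := by
  unfold ChR
  refine Measurable.exists fun a => ?_
  exact (measurable_const (a := (q = p ++ [a]))).and
    ((KAna_pre q.length (fun l => B q l)).comp measurable_fst)

theorem KAna_G (i m : ℕ) : Measurable fun x : KAnaT => x.2.2 i m := by
  have h1 : Measurable fun G : ℕ → ℕ → ℕ => G i m :=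
    (measurable_pi_apply m).comp (measurable_pi_apply i)
  exact h1.comp (measurable_snd.comp measurable_snd)

theorem KAna_Geq (i m j : ℕ) : Measurable fun x : KAnaT => x.2.2 i m = j := by
  rw [← measurableSet_setOfPred]
  exact KAna_G i m (measurableSet_singleton j)

/-- the coded maps -/
def KAna_g (G : ℕ → ℕ) (u : List ℕ) : List ℕ := nd (G (Encodable.encode u))

theorem KAna_Mp (B : List ℕ → List Bool → Prop) (i : ℕ) (s t : List ℕ) :
    Measurable fun x : KAnaT => Mp B x.2.1 x.1 s t (KAna_g (x.2.2 i)) := by
  have e : ∀ x : KAnaT, Mp B x.2.1 x.1 s t (KAna_g (x.2.2 i)) ↔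
      ((∃ m : ℕ, x.2.2 i (Encodable.encode s) = m ∧ nd m = t) ∧
        ∀ (u : List ℕ) (a : ℕ), s <+: u → B (u ++ [a]) (pre x.2.1 (u.length + 1)) →
          ∃ m' m : ℕ, x.2.2 i (Encodable.encode (u ++ [a])) = m' ∧ x.2.2 i (Encodable.encode u) = m ∧
            ChR B x.1 (nd m') (nd m)) := by
    intro x
    unfold Mp KAna_g
    constructor
    · rintro ⟨h1, h2⟩
      exact ⟨⟨_, rfl, h1⟩, fun u a hu hB => ⟨_, _, rfl, rfl, h2 u a hu hB⟩⟩
    · rintro ⟨⟨m, h1, h1'⟩, h2⟩
      refine ⟨by rw [h1, h1'], fun u a hu hB => ?_⟩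
      obtain ⟨m', m, e1, e2, e3⟩ := h2 u a hu hB
      rw [e1, e2]
      exact e3
  simp only [e]
  refine Measurable.and (Measurable.exists fun m => (KAna_Geq _ _ _).and measurable_const) ?_
  refine Measurable.forall fun u => Measurable.forall fun a => ?_
  refine Measurable.imp measurable_const (Measurable.imp ?_ ?_)
  · exact (KAna_pre (u.length + 1) (fun l => B (u ++ [a]) l)).comp
      (measurable_fst.comp measurable_snd)
  · exact Measurable.exists fun m' => Measurable.exists fun m =>
      (KAna_Geq _ _ _).and ((KAna_Geq _ _ _).and (KAna_ChR B _ _))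

/-- the condition on the witnesses -/
def KAna_M (B : List ℕ → List Bool → Prop) (n t : ℕ) (x : KAnaT) : Prop :=
  (∀ k, x.2.1 (2 * k) = x.1 (2 * k)) ∧
    (∀ i, i < n → (x.2.1 i = x.1 i ∧ Mp B x.2.1 x.1 (nd i) (nd i) (KAna_g (x.2.2 i)))) ∧
      ((ChR B x.1 (nd t) (nd n) ∧ Mp B x.2.1 x.1 (nd n) (nd t) (KAna_g (x.2.2 n))) ∨
        (Mp B x.2.1 x.1 (nd n) (nd n) (KAna_g (x.2.2 n)) ∧ x.2.1 n = false ∧ x.1 n = true))

theorem KAna_eqc (k : ℕ) : Measurable fun x : KAnaT => x.2.1 k = x.1 k := by
  rw [← measurableSet_setOfPred]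
  exact measurableSet_eq_fun
    ((measurable_pi_apply k).comp (measurable_fst.comp measurable_snd))
    ((measurable_pi_apply k).comp measurable_fst)

theorem KAna_y' (k : ℕ) (b : Bool) : Measurable fun x : KAnaT => x.2.1 k = b := by
  have h : Measurable fun x : KAnaT => x.2.1 k :=
    (measurable_pi_apply k).comp (measurable_fst.comp measurable_snd)
  rw [← measurableSet_setOfPred]
  exact h (measurableSet_singleton b)

theorem KAna_y (k : ℕ) (b : Bool) : Measurable fun x : KAnaT => x.1 k = b := by
  have h : Measurable fun x : KAnaT => x.1 k := (measurable_pi_apply k).comp measurable_fst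
  rw [← measurableSet_setOfPred]
  exact h (measurableSet_singleton b)

theorem KAna_meas (B : List ℕ → List Bool → Prop) (n t : ℕ) :
    MeasurableSet {x : KAnaT | KAna_M B n t x} := by
  rw [measurableSet_setOfPred]
  unfold KAna_M
  refine Measurable.and (Measurable.forall fun k => KAna_eqc _) (Measurable.and ?_ ?_)
  · exact Measurable.forall fun i => Measurable.imp measurable_const
      ((KAna_eqc i).and (KAna_Mp B i _ _))
  · refine Measurable.or ((KAna_ChR B _ _).and (KAna_Mp B n _ _)) ?_
    exact (KAna_Mp B n _ _).and ((KAna_y' n false).and (KAna_y n true))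

theorem KAna_code (g : List ℕ → List ℕ) : ∃ G : ℕ → ℕ, KAna_g G = g := by
  refine ⟨fun k => Encodable.encode (g (Denumerable.ofNat (List ℕ) k)), ?_⟩
  funext u
  unfold KAna_g nd
  rw [Denumerable.ofNat_encode, Denumerable.ofNat_encode]

theorem KAna_iff (B : List ℕ → List Bool → Prop) (y : Rl) :
    Bet B y ↔ ∃ n t : ℕ, ∃ z : Rl × (ℕ → ℕ → ℕ), KAna_M B n t (y, z) := by
  constructor
  · rintro ⟨n, y', h1, h2, h3⟩
    have hev : ∀ k, y' (2 * k) = y (2 * k) := fun k => congrFun h1 k
    have h2' : ∀ i, ∃ G : ℕ → ℕ, i < n → (y' i = y i ∧ Mp B y' y (nd i) (nd i) (KAna_g G)) := by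
      intro i
      by_cases hi : i < n
      · obtain ⟨e, g, hg⟩ := h2 i hi
        obtain ⟨G, hG⟩ := KAna_code g
        exact ⟨G, fun _ => ⟨e, by rw [hG]; exact hg⟩⟩
      · exact ⟨fun _ => 0, fun h => absurd h hi⟩
    choose G hG using h2'
    rcases h3 with ⟨g, t, ht, hg⟩ | ⟨⟨g, hg⟩, hf, htr⟩
    · obtain ⟨G', hG'⟩ := KAna_code g
      refine ⟨n, Encodable.encode t, (y', fun i => if i < n then G i else G'), hev, ?_, Or.inl ?_⟩
      · intro i hi
        have := hG i hi
        simpa only [hi, if_true] using this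
      · have ht' : nd (Encodable.encode t) = t := by
          unfold nd
          rw [Denumerable.ofNat_encode]
        refine ⟨?_, ?_⟩
        · change ChR B y (nd (Encodable.encode t)) (nd n)
          rw [ht']
          exact ht
        · change Mp B y' y (nd n) (nd (Encodable.encode t)) (KAna_g (if n < n then G n else G'))
          rw [if_neg (lt_irrefl n), ht', hG']
          exact hg
    · obtain ⟨G', hG'⟩ := KAna_code g
      refine ⟨n, 0, (y', fun i => if i < n then G i else G'), hev, ?_, Or.inr ⟨?_, hf, htr⟩⟩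
      · intro i hi
        have := hG i hi
        simpa only [hi, if_true] using this
      · change Mp B y' y (nd n) (nd n) (KAna_g (if n < n then G n else G'))
        rw [if_neg (lt_irrefl n), hG']
        exact hg
  · rintro ⟨n, t, ⟨y', G⟩, h1, h2, h3⟩
    refine ⟨n, y', ?_, ?_, ?_⟩
    · funext k
      exact h1 k
    · intro i hi
      exact ⟨(h2 i hi).1, _, (h2 i hi).2⟩
    · rcases h3 with ⟨h3, h4⟩ | ⟨h3, h4, h5⟩
      · exact Or.inl ⟨_, _, h3, h4⟩
      · exact Or.inr ⟨⟨_, h3⟩, h4, h5⟩

theorem analytic_Bet (B : List ℕ → List Bool → Prop) :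
    MeasureTheory.AnalyticSet {y : Rl | Bet B y} := by
  have h1 : {y : Rl | Bet B y} =
      ⋃ n : ℕ, ⋃ t : ℕ, Prod.fst '' {x : KAnaT | KAna_M B n t x} := by
    ext y
    simp only [Set.mem_iUnion, Set.mem_image, Set.mem_ofPred_eq, KAna_iff]
    constructor
    · rintro ⟨n, t, z, h⟩
      exact ⟨n, t, (y, z), h, rfl⟩
    · rintro ⟨n, t, ⟨y', z⟩, h, rfl⟩
      exact ⟨n, t, z, h⟩
  rw [h1]
  have i0 : PolishSpace ℕ := inferInstance
  have hc : Continuous fun b : Bool => b.toNat := continuous_of_discreteTopology
  have hce : Topology.IsClosedEmbedding fun b : Bool => b.toNat :=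
    hc.isClosedEmbedding (fun a b h => by cases a <;> cases b <;> simp_all)
  have i0' : PolishSpace Bool := hce.polishSpace
  have i1 : PolishSpace (ℕ → Bool) := inferInstance
  have i2 : PolishSpace (ℕ → ℕ → ℕ) := inferInstance
  have i3 : PolishSpace KAnaT := inferInstance
  exact MeasureTheory.AnalyticSet.iUnion fun n => MeasureTheory.AnalyticSet.iUnion fun t =>
    (KAna_meas B n t).analyticSet.image_of_continuous continuous_fst

end Pool.Agent.NIL
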