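import Pool.Agent.NIL.KRk

/-!
# KMinA: a best real exists

For `w ∈ PB B` let `ρ i w` be the rank of `nd i` in the tree of `w` (`Rv_exists` and choice: `Rv (ChR B w) (ρ i w) (nd i)`).
Let `S 0 = {w ∈ PB B | ev w = ev y}` and `S (n + 1)` the set of the `w ∈ S n` such that for all `w' ∈ S n`: `ρ n w ≤ ρ n w'`, and if
`ρ n w' = ρ n w` and `w n = true` then `w' n = true`. All `S n` are nonempty (take the minimal value of `ρ n` on `S n`, and
if possible the bit `false`), decreasing, and the elements of `S (n + 1)` have the same `ρ n` and the same `n`-th bit.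
Choose `w_n ∈ S (n + 1)`, let `r n = ρ n w_n` and let `y*` be the real with `y* n = w_n n`. So for `m ≥ n` `w_m n = y* n`,
`ρ n w_m = r n`.
* `ev y* = ev y`: clear.
* (*) If `ChR B y* q s` then `r (encode q) < r (encode s)`: for `m` large (`m ≥ encode q, encode s, q.length`) `w_m` agrees
  with `y*` below `q.length`, so `ChR B w_m q s`, so `ρ (encode q) w_m < ρ (encode s) w_m` (`Rv_lt`; `nd (encode q) = q`).
* So `ChR B y*` is well-founded (`InvImage`/`Subrelation`), hence `y* ∈ PB B` (a branch `z` gives an infinite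
  descending sequence `pre z n`), and `Rk (ChR B y*) c s → c ≤ r (encode s)` by induction on `c`, so
  `ρ i y* ≤ r i`.
* `¬ Bet B y*`: let `n, y'` be as in `Bet`. `y' ∈ PB B` by `Mp_PB` (`nd 0 = []`; if `n = 0` use the last clause: `Lt` or `Le` at `0`;
  otherwise `Le` at `0`). By induction on `i ≤ n`: `y' ∈ S i`: `i = 0`: `ev y' = ev y`. `i → i + 1 ≤ n`: `ρ i y' ≤ ρ i y* ≤ r i`
  (`Le_iff`, `Rk_iff_le`) and `y' i = y* i = w_i i`, `w_i` is minimal in `S i`, so `y'` is minimal too. Then at `n`: `Lt` gives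
  `ρ n y' < ρ n y* ≤ r n` (`Lt_iff`), or `ρ n y' ≤ r n`, `y' n = false`, `w_n n = y* n = true`; both contradict the minimality
  of `w_n` in `S n`.
-/

namespace Pool.Agent.NIL

open Cardinal Pool.Agent.NI

/-- The decreasing sequence of sets of candidates. -/
def KMinA_S (ρ : ℕ → Rl → Ordinal.{0}) (S₀ : Set Rl) : ℕ → Set Rl
  | 0 => S₀
  | n + 1 => {w ∈ KMinA_S ρ S₀ n | ∀ w' ∈ KMinA_S ρ S₀ n, ρ n w ≤ ρ n w' ∧
      (ρ n w' = ρ n w → w n = true → w' n = true)}

theorem KMinA_ne (ρ : ℕ → Rl → Ordinal.{0}) (S₀ : Set Rl) (h : S₀.Nonempty) (n : ℕ) :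
    (KMinA_S ρ S₀ n).Nonempty := by
  induction n with
  | zero => exact h
  | succ n ih =>
    obtain ⟨w₀, hw₀, hmin⟩ : ∃ w₀ ∈ KMinA_S ρ S₀ n, ∀ w' ∈ KMinA_S ρ S₀ n, ρ n w₀ ≤ ρ n w' := by
      obtain ⟨w₀, h1, h2⟩ := (InvImage.wf (ρ n) (wellFounded_lt (α := Ordinal.{0}))).has_min _ ih
      exact ⟨w₀, h1, fun w' hw' => not_lt.1 (h2 w' hw')⟩
    by_cases hc : ∃ w₁ ∈ KMinA_S ρ S₀ n, ρ n w₁ = ρ n w₀ ∧ w₁ n = false
    · obtain ⟨w₁, h1, h2, h3⟩ := hc
      refine ⟨w₁, h1, fun w' hw' => ⟨h2 ▸ hmin w' hw', fun _ h4 => ?_⟩⟩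
      rw [h3] at h4
      exact absurd h4 (by simp)
    · refine ⟨w₀, hw₀, fun w' hw' => ⟨hmin w' hw', fun h1 _ => ?_⟩⟩
      by_contra h3
      exact hc ⟨w', hw', h1, by simpa using h3⟩

theorem KMinA_anti (ρ : ℕ → Rl → Ordinal.{0}) (S₀ : Set Rl) {m n : ℕ} (h : n ≤ m) :
    KMinA_S ρ S₀ m ⊆ KMinA_S ρ S₀ n := by
  induction h with
  | refl => exact subset_rfl
  | step _ ih => exact fun w hw => ih hw.1

theorem KMinA_nd (s : List ℕ) : nd (Encodable.encode s) = s := Denumerable.ofNat_encode s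

theorem KMinA_enc (i : ℕ) : Encodable.encode (nd i) = i := Denumerable.encode_ofNat i

theorem KMinA_nd0 : nd 0 = [] := KMinA_nd []

theorem exists_best (B : List ℕ → List Bool → Prop) (hB : PC B) (y : Rl) (hy : y ∈ PB B) :
    ∃ y' ∈ PB B, ev y' = ev y ∧ ¬ Bet B y' := by
  classical
  -- the ranks
  have hex : ∀ (i : ℕ) (w : Rl), ∃ o, w ∈ PB B → Rv (ChR B w) o (nd i) := by
    intro i w
    by_cases hw : w ∈ PB B
    · obtain ⟨o, ho⟩ := Rv_exists (ChR B w) (ChR_wf B hB w hw) (nd i)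
      exact ⟨o, fun _ => ho⟩
    · exact ⟨0, fun h => absurd h hw⟩
  choose ρ hρ using hex
  obtain ⟨S₀, hS₀⟩ : ∃ S₀ : Set Rl, S₀ = {w | w ∈ PB B ∧ ev w = ev y} := ⟨_, rfl⟩
  have hne : S₀.Nonempty := ⟨y, by rw [hS₀]; exact ⟨hy, rfl⟩⟩
  choose w hw using fun n => KMinA_ne ρ S₀ hne (n + 1)
  have hw0 : ∀ n, w n ∈ PB B ∧ ev (w n) = ev y := by
    intro n
    have := KMinA_anti ρ S₀ (Nat.zero_le (n + 1)) (hw n)
    rw [KMinA_S, hS₀] at this
    exact this
  -- comparison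
  have hcmp : ∀ {n : ℕ} {u v : Rl}, u ∈ KMinA_S ρ S₀ (n + 1) → v ∈ KMinA_S ρ S₀ (n + 1) →
      ρ n u = ρ n v ∧ u n = v n := by
    intro n u v hu hv
    have h1 : ρ n u = ρ n v := le_antisymm (hu.2 v hv.1).1 (hv.2 u hu.1).1
    refine ⟨h1, ?_⟩
    have h2 := (hu.2 v hv.1).2 h1.symm
    have h3 := (hv.2 u hu.1).2 h1
    rcases Bool.eq_false_or_eq_true (u n) with h4 | h4
    · rw [h4, h2 h4]
    · rcases Bool.eq_false_or_eq_true (v n) with h5 | h5
      · rw [h3 h5, h5]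
      · rw [h4, h5]
  have hwm : ∀ {n m : ℕ}, n ≤ m → ρ n (w m) = ρ n (w n) ∧ w m n = w n n := by
    intro n m hnm
    exact hcmp (KMinA_anti ρ S₀ (Nat.succ_le_succ hnm) (hw m)) (hw n)
  obtain ⟨ys, hys⟩ : ∃ ys : Rl, ys = fun n => w n n := ⟨_, rfl⟩
  obtain ⟨r, hr⟩ : ∃ r : ℕ → Ordinal.{0}, r = fun n => ρ n (w n) := ⟨_, rfl⟩
  have hev : ev ys = ev y := by
    funext n
    have h1 : ev ys n = ev (w (2 * n)) n := by
      rw [hys]
      rfl
    rw [h1, (hw0 (2 * n)).2]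
  have hagr : ∀ (k m : ℕ), k ≤ m + 1 → pre (w m) k = pre ys k := by
    intro k m hkm
    unfold pre
    refine List.map_congr_left fun i hi => ?_
    rw [List.mem_range] at hi
    rw [hys]
    exact (hwm (by omega : i ≤ m)).2
  have hdec : ∀ q s : List ℕ, ChR B ys q s → r (Encodable.encode q) < r (Encodable.encode s) := by
    rintro q s ⟨a, hq, hBq⟩
    obtain ⟨m, hm1, hm2, hm3⟩ : ∃ m, Encodable.encode q ≤ m ∧ Encodable.encode s ≤ m ∧ q.length ≤ m :=
      ⟨max (Encodable.encode q) (max (Encodable.encode s) q.length), by omega, by omega, by omega⟩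
    have h1 : ChR B (w m) q s := ⟨a, hq, by rw [hagr _ _ (by omega)]; exact hBq⟩
    have h2 := hρ (Encodable.encode q) (w m) (hw0 m).1
    have h3 := hρ (Encodable.encode s) (w m) (hw0 m).1
    rw [KMinA_nd] at h2 h3
    have h4 := Rv_lt _ _ _ _ _ h2 h3 h1
    rw [hr]
    show ρ (Encodable.encode q) (w (Encodable.encode q)) < ρ (Encodable.encode s) (w (Encodable.encode s))
    rw [← (hwm hm1).1, ← (hwm hm2).1]
    exact h4
  have hwf : WellFounded (ChR B ys) :=
    Subrelation.wf (fun {q s} h => hdec q s h)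
      (InvImage.wf (fun s : List ℕ => r (Encodable.encode s)) (wellFounded_lt (α := Ordinal.{0})))
  have hysP : ys ∈ PB B := by
    rintro ⟨z, hz⟩
    rw [wellFounded_iff_isEmpty_descending_chain] at hwf
    refine hwf.false ⟨fun n => pre z n, fun n => ⟨z n, KRk_pre_succ z n, ?_⟩⟩
    show B (pre z (n + 1)) (pre ys (pre z (n + 1)).length)
    rw [KRk_pre_len]
    exact hz (n + 1)
  have hbd : ∀ c : Ordinal.{0}, ∀ s : List ℕ, Rk (ChR B ys) c s → c ≤ r (Encodable.encode s) := by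
    intro c
    induction c using WellFoundedLT.induction with
    | ind c ih =>
      intro s hs
      rw [Rk] at hs
      refine le_of_forall_lt fun d hd => ?_
      obtain ⟨q, hq1, hq2⟩ := hs d hd
      exact (ih d hd q hq2).trans_lt (hdec q s hq1)
  refine ⟨ys, hysP, hev, ?_⟩
  rintro ⟨n, y', hevy', hlow, hlast⟩
  -- y' is in the coanalytic set
  have hy' : y' ∈ PB B := by
    obtain ⟨t, g, hg⟩ : ∃ t g, Mp B y' ys [] t g := by
      rcases Nat.eq_zero_or_pos n with hn | hn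
      · subst hn
        rcases hlast with ⟨g, t, -, hg⟩ | ⟨⟨g, hg⟩, -⟩
        · rw [KMinA_nd0] at hg
          exact ⟨t, g, hg⟩
        · rw [KMinA_nd0] at hg
          exact ⟨_, g, hg⟩
      · obtain ⟨g, hg⟩ := (hlow 0 hn).2
        rw [KMinA_nd0] at hg
        exact ⟨_, g, hg⟩
    exact Mp_PB B hB y' ys hysP t g hg
  have hle : ∀ i, Le B y' ys i → ρ i y' ≤ ρ i (w i) := by
    intro i hi
    have h1 := (Le_iff B hB y' ys hy' i).1 hi _ (hρ i y' hy').1
    have h2 := hbd _ _ h1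
    rw [KMinA_enc, hr] at h2
    exact h2
  have hmem : ∀ i, i ≤ n → y' ∈ KMinA_S ρ S₀ i := by
    intro i
    induction i with
    | zero =>
      intro _
      rw [KMinA_S, hS₀]
      exact ⟨hy', hevy'.trans hev⟩
    | succ i ih =>
      intro hi
      have h1 := ih (by omega)
      obtain ⟨h2, h3⟩ := hlow i (by omega)
      have h4 := hle i h3
      refine ⟨h1, fun w' hw' => ?_⟩
      have h5 := (hw i).2 w' hw'
      refine ⟨h4.trans h5.1, fun h6 h7 => ?_⟩
      have h8 : ρ i w' = ρ i (w i) := le_antisymm (h6 ▸ h4) h5.1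
      apply h5.2 h8
      rw [h2, hys] at h7
      exact h7
  have hyn := hmem n le_rfl
  have h5 := (hw n).2 y' hyn
  rcases hlast with hlt | ⟨hle', h1, h2⟩
  · obtain ⟨c, hc1, hc2⟩ := (Lt_iff B hB y' ys hy' hysP n).1 hlt
    have h6 := hbd _ _ hc2
    rw [KMinA_enc, hr] at h6
    exact hc1 ((Rk_iff_le _ _ _ _ (hρ n y' hy')).2 (h6.trans h5.1))
  · have h6 : ρ n y' = ρ n (w n) := le_antisymm (hle n hle') h5.1
    have h7 := h5.2 h6 (by rw [hys] at h2; exact h2)
    rw [h1] at h7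
    exact absurd h7 (by simp)

end Pool.Agent.NIL
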