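import Pool.Agent.NIL.KRk

/-!
# KMinB: the best real is unique

Let `y, y' ∈ PB B` with `ev y = ev y'`, `¬ Bet B y`, `¬ Bet B y'`. By strong induction on `n`: `y n = y' n` and the ranks of
`nd n` in the trees of `y` and `y'` are equal (`Rv (ChR B y) o (nd n)` and `Rv (ChR B y') o (nd n)` for the same `o`; see
`Rv_exists`). Given this below `n`, `Le B y' y i` and `Le B y y' i` for `i < n` (`Le_iff`, `Rk_iff_le`). If the rank of `nd n` for `y'`
is smaller then `Lt B y' y n` (`Lt_iff`) and `Bet B y`; symmetrically. So the ranks are equal, `Le` holds at `n` in both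
directions. If `y' n = false`, `y n = true` then `Bet B y`; symmetrically. So `y n = y' n`.
-/

namespace Pool.Agent.NIL

open Cardinal Pool.Agent.NI

theorem KMinB_le (B : List ℕ → List Bool → Prop) (hB : PC B) (y y' : Rl) (hy' : y' ∈ PB B)
    (i : ℕ) (o o' : Ordinal.{0}) (h : Rv (ChR B y) o (nd i)) (h' : Rv (ChR B y') o' (nd i))
    (hoo : o' ≤ o) : Le B y' y i := by
  rw [Le_iff B hB y' y hy' i]
  intro c hc
  rw [Rk_iff_le _ _ _ _ h'] at hc
  rw [Rk_iff_le _ _ _ _ h]
  exact hc.trans hoo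

theorem KMinB_lt (B : List ℕ → List Bool → Prop) (hB : PC B) (y y' : Rl) (hy : y ∈ PB B)
    (hy' : y' ∈ PB B) (i : ℕ) (o o' : Ordinal.{0}) (h : Rv (ChR B y) o (nd i))
    (h' : Rv (ChR B y') o' (nd i)) (hoo : o' < o) : Lt B y' y i := by
  rw [Lt_iff B hB y' y hy' hy i]
  refine ⟨o, ?_, ?_⟩
  · rw [Rk_iff_le _ _ _ _ h']
    exact not_le.2 hoo
  · rw [Rk_iff_le _ _ _ _ h]

/-- one half of the induction step -/
theorem KMinB_step (B : List ℕ → List Bool → Prop) (hB : PC B) (y y' : Rl) (hy : y ∈ PB B)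
    (hy' : y' ∈ PB B) (he : ev y = ev y') (h : ¬ Bet B y) (n : ℕ)
    (ih : ∀ i < n, y' i = y i ∧ Le B y' y i) (o o' : Ordinal.{0})
    (ho : Rv (ChR B y) o (nd n)) (ho' : Rv (ChR B y') o' (nd n)) :
    o ≤ o' ∧ (o' = o → y n = true → y' n = true) := by
  constructor
  · by_contra hc
    exact h ⟨n, y', he.symm, ih, Or.inl (KMinB_lt B hB y y' hy hy' n o o' ho ho' (not_le.1 hc))⟩
  · intro hoo hn
    by_contra hc
    have hc' : y' n = false := by
      cases hh : y' n
      · rfl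
      · exact absurd hh hc
    exact h ⟨n, y', he.symm, ih,
      Or.inr ⟨KMinB_le B hB y y' hy' n o o' ho ho' hoo.le, hc', hn⟩⟩

theorem best_unique (B : List ℕ → List Bool → Prop) (hB : PC B) (y y' : Rl) (hy : y ∈ PB B)
    (hy' : y' ∈ PB B) (he : ev y = ev y') (h : ¬ Bet B y) (h' : ¬ Bet B y') : y = y' := by
  have key : ∀ n, y n = y' n ∧ ∃ o, Rv (ChR B y) o (nd n) ∧ Rv (ChR B y') o (nd n) := by
    intro n
    induction n using Nat.strong_induction_on with
    | _ n ih =>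
      obtain ⟨o, ho⟩ := Rv_exists (ChR B y) (ChR_wf B hB y hy) (nd n)
      obtain ⟨o', ho'⟩ := Rv_exists (ChR B y') (ChR_wf B hB y' hy') (nd n)
      obtain ⟨h1, h2⟩ := KMinB_step B hB y y' hy hy' he h n (fun i hi => by
        obtain ⟨h3, o₁, h4, h5⟩ := ih i hi
        exact ⟨h3.symm, KMinB_le B hB y y' hy' i o₁ o₁ h4 h5 le_rfl⟩) o o' ho ho'
      obtain ⟨h1', h2'⟩ := KMinB_step B hB y' y hy' hy he.symm h' n (fun i hi => by
        obtain ⟨h3, o₁, h4, h5⟩ := ih i hi
        exact ⟨h3, KMinB_le B hB y' y hy i o₁ o₁ h5 h4 le_rfl⟩) o' o ho' ho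
      have hoo : o = o' := le_antisymm h1 h1'
      subst hoo
      refine ⟨?_, o, ho, ho'⟩
      have a1 := h2 rfl
      have a2 := h2' rfl
      cases hh : y n <;> cases hh' : y' n
      · rfl
      · rw [hh] at a2; exact absurd (a2 hh') (by simp)
      · rw [hh'] at a1; exact absurd (a1 hh) (by simp)
      · rfl
  funext n
  exact (key n).1

end Pool.Agent.NIL
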