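import Pool.Agent.NIL.RkW

/-!
# KRk: comparison of ranks of nodes

* `ChR_wf`: if not, there is an infinite sequence `s_n` with `ChR B y s_{n+1} s_n`; `s_n`, `n ≥ 1`, are nodes of the tree of
  `y`, each is obtained from the previous one by appending one element, so they are the initial segments (of
  length `≥ k`) of some `z : ℕ → ℕ`; by `PC` all initial segments of `z` satisfy `B (pre z n) (pre y n)`, so `y ∉ PB B`.
* `Mp_rank`: induction on `c`, for all `u` with `s <+: u`: `Rk (ChR B y') c u → Rk (ChR B y) c (g u)`.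
* `Mp_PB`: if `y' ∉ PB B` let `z` be a branch of the tree of `y'`; `g (pre z n)`, `n ∈ ℕ`, is an infinite descending
  sequence of `ChR B y` (`pre z (n + 1) = pre z n ++ [z n]`), which contradicts `ChR_wf`.
* `exists_Mp`: module `NI/Grd`, `greedy` with `lev u = u.length - s.length`, `par = List.dropLast`,
  `N u = (s <+: u ∧ (u = s ∨ B u (pre y' u.length)))`, `R = ChR B y'`, `E = ChR B y`, `e₀ = t`; the ranks in the tree of `y'`
  are bounded by `ChR_wf` and `Rk_acc`. (`PC` gives `N (par q)`.)
* `Le_iff`: `→` `Mp_rank`; `←` `exists_Mp`.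
* `Lt_iff`: `→`: let `g`, `t` be as in `Lt`, `Rv (ChR B y) o t` (`Rv_exists`), `c = o + 1`: `Rk (ChR B y) (o + 1) (nd i)` by
  `Rk_succ`; `Rk (ChR B y') (o + 1) (nd i)` would give `Rk (ChR B y) (o + 1) t` by `Mp_rank`. `←`: let `Rv (ChR B y') o (nd i)`
  (`Rv_exists`); `¬ Rk (ChR B y') c (nd i)` gives `o < c` (`Rk_iff_le`), so `Rk (ChR B y) (o + 1) (nd i)`, so there is `t` with
  `ChR B y t (nd i)`, `Rk (ChR B y) o t`; `exists_Mp` (if `Rk (ChR B y') c' (nd i)` then `c' ≤ o`).
-/

namespace Pool.Agent.NIL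

open Cardinal Pool.Agent.NI

theorem KRk_pre_succ {α : Type} (f : ℕ → α) (n : ℕ) : pre f (n + 1) = pre f n ++ [f n] := by
  unfold pre
  rw [List.range_succ, List.map_append]
  rfl

theorem KRk_pre_len {α : Type} (f : ℕ → α) (n : ℕ) : (pre f n).length = n := by
  unfold pre
  rw [List.length_map, List.length_range]

theorem ChR_wf (B : List ℕ → List Bool → Prop) (hB : PC B) (y : Rl) (hy : y ∈ PB B) :
    WellFounded (ChR B y) := by
  rw [wellFounded_iff_isEmpty_descending_chain]
  constructor
  rintro ⟨s, hs⟩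
  apply hy
  choose a ha hBa using hs
  have hlen : ∀ n, (s n).length = (s 0).length + n := by
    intro n
    induction n with
    | zero => rfl
    | succ n ih => rw [ha n, List.length_append, ih]; rfl
  -- the branch
  obtain ⟨z, hz⟩ : ∃ z : ℕ → ℕ, z = fun i => if h : i < (s 0).length then (s 0)[i] else a (i - (s 0).length) :=
    ⟨_, rfl⟩
  have hz0 : ∀ n, n ≤ (s 0).length → pre z n = (s 0).take n := by
    intro n hn
    apply List.ext_getElem
    · rw [KRk_pre_len, List.length_take]
      omega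
    · intro i h1 h2
      rw [KRk_pre_len] at h1
      have h3 : i < (s 0).length := by omega
      simp only [pre, List.getElem_map, List.getElem_range, List.getElem_take]
      rw [hz]
      simp only [h3, dif_pos]
  have hzn : ∀ n, pre z ((s 0).length + n) = s n := by
    intro n
    induction n with
    | zero =>
      rw [Nat.add_zero, hz0 _ le_rfl, List.take_length]
    | succ n ih =>
      rw [← Nat.add_assoc, KRk_pre_succ, ih, ha n]
      congr 2
      rw [hz]
      simp
  refine ⟨z, ?_⟩
  have hdown : ∀ n, B (pre z (n + 1)) (pre y (n + 1)) → B (pre z n) (pre y n) := by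
    intro n h
    rw [KRk_pre_succ, KRk_pre_succ] at h
    exact hB _ _ _ _ h
  have hup : ∀ n, B (pre z ((s 0).length + (n + 1))) (pre y ((s 0).length + (n + 1))) := by
    intro n
    rw [hzn (n + 1)]
    have := hBa n
    rwa [hlen (n + 1)] at this
  intro n
  have key : ∀ k, B (pre z (n + k)) (pre y (n + k)) → B (pre z n) (pre y n) := by
    intro k
    induction k with
    | zero => exact id
    | succ k ih => exact fun h => ih (hdown _ h)
  apply key ((s 0).length + 1)
  have := hup n
  have e : (s 0).length + (n + 1) = n + ((s 0).length + 1) := by omega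
  rwa [e] at this

theorem Mp_rank (B : List ℕ → List Bool → Prop) (y' y : Rl) (s t : List ℕ) (g : List ℕ → List ℕ)
    (h : Mp B y' y s t g) (c : Ordinal.{0}) (hc : Rk (ChR B y') c s) : Rk (ChR B y) c t := by
  have key : ∀ c : Ordinal.{0}, ∀ u : List ℕ, s <+: u → Rk (ChR B y') c u → Rk (ChR B y) c (g u) := by
    intro c
    induction c using WellFoundedLT.induction with
    | ind c ih =>
      intro u hu hr
      rw [Rk] at hr ⊢
      intro d hd
      obtain ⟨q, ⟨a, hq, hBq⟩, hq2⟩ := hr d hd
      subst hq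
      refine ⟨g (u ++ [a]), h.2 u a hu ?_, ih d hd _ (hu.trans (List.prefix_append _ _)) hq2⟩
      rwa [List.length_append] at hBq
  have := key c s (List.prefix_refl s) hc
  rwa [h.1] at this

theorem Mp_PB (B : List ℕ → List Bool → Prop) (hB : PC B) (y' y : Rl) (hy : y ∈ PB B)
    (t : List ℕ) (g : List ℕ → List ℕ) (h : Mp B y' y [] t g) : y' ∈ PB B := by
  rintro ⟨z, hz⟩
  have hwf := ChR_wf B hB y hy
  rw [wellFounded_iff_isEmpty_descending_chain] at hwf
  refine hwf.false ⟨fun n => g (pre z n), fun n => ?_⟩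
  show ChR B y (g (pre z (n + 1))) (g (pre z n))
  rw [KRk_pre_succ]
  refine h.2 (pre z n) (z n) List.nil_prefix ?_
  rw [← KRk_pre_succ, KRk_pre_len]
  exact hz (n + 1)

theorem exists_Mp (B : List ℕ → List Bool → Prop) (hB : PC B) (y' y : Rl) (hy' : y' ∈ PB B)
    (s t : List ℕ) (h : ∀ c, Rk (ChR B y') c s → Rk (ChR B y) c t) :
    ∃ g, Mp B y' y s t g := by
  have hwf := ChR_wf B hB y' hy'
  have hq : ∀ q : List ℕ, s <+: q → 0 < q.length - s.length → ∃ u a, q = u ++ [a] ∧ s <+: u := by
    intro q hq hl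
    have hne : q ≠ [] := by
      rintro rfl
      simp at hl
    refine ⟨q.dropLast, q.getLast hne, (List.dropLast_append_getLast hne).symm, ?_⟩
    obtain ⟨r, rfl⟩ := hq
    have hr : r ≠ [] := by
      rintro rfl
      simp at hl
    rw [List.dropLast_append_of_ne_nil hr]
    exact List.prefix_append _ _
  obtain ⟨g, hg1, hg2⟩ := greedy (α := List ℕ) (β := List ℕ) (fun u => u.length - s.length) List.dropLast
    (fun u => s <+: u ∧ (u = s ∨ B u (pre y' u.length)))
    (by
      rintro q ⟨h1, h2⟩ hl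
      obtain ⟨u, a, rfl, hu⟩ := hq q h1 hl
      have h3 : B (u ++ [a]) (pre y' (u ++ [a]).length) := by
        rcases h2 with h2 | h2
        · rw [h2] at hl
          simp at hl
        · exact h2
      rw [List.dropLast_concat]
      refine ⟨⟨hu, Or.inr ?_⟩, ?_⟩
      · rw [List.length_append, List.length_singleton, KRk_pre_succ] at h3
        exact hB _ _ _ _ h3
      · have := hu.length_le
        simp only [List.length_append, List.length_singleton]
        omega)
    (ChR B y')
    (by
      rintro q ⟨h1, h2⟩ hl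
      obtain ⟨u, a, rfl, hu⟩ := hq q h1 hl
      have h3 : B (u ++ [a]) (pre y' (u ++ [a]).length) := by
        rcases h2 with h2 | h2
        · rw [h2] at hl
          simp at hl
        · exact h2
      rw [List.dropLast_concat]
      exact ⟨a, rfl, h3⟩)
    (ChR B y) t
    (by
      rintro p ⟨h1, -⟩ hl
      have hp : s = p := h1.eq_of_length_le (by omega)
      subst hp
      exact ⟨Rk_acc _ _ (hwf.apply s), h⟩)
  refine ⟨g, hg2 s (by simp), ?_⟩
  intro u a hu hBu
  have hl := hu.length_le
  have := hg1 (u ++ [a]) ⟨hu.trans (List.prefix_append _ _), Or.inr (by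
    rw [List.length_append, List.length_singleton]
    exact hBu)⟩ (by
      simp only [List.length_append, List.length_singleton]
      omega)
  rwa [List.dropLast_concat] at this

theorem Le_iff (B : List ℕ → List Bool → Prop) (hB : PC B) (y' y : Rl) (hy' : y' ∈ PB B)
    (i : ℕ) : Le B y' y i ↔ ∀ c, Rk (ChR B y') c (nd i) → Rk (ChR B y) c (nd i) :=
  ⟨fun ⟨g, hg⟩ c hc => Mp_rank B y' y _ _ g hg c hc, fun h => exists_Mp B hB y' y hy' _ _ h⟩

theorem Lt_iff (B : List ℕ → List Bool → Prop) (hB : PC B) (y' y : Rl) (hy' : y' ∈ PB B)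
    (hy : y ∈ PB B) (i : ℕ) :
    Lt B y' y i ↔ ∃ c, ¬ Rk (ChR B y') c (nd i) ∧ Rk (ChR B y) c (nd i) := by
  constructor
  · rintro ⟨g, t, ht, hg⟩
    obtain ⟨o, ho1, ho2⟩ := Rv_exists (ChR B y) (ChR_wf B hB y hy) t
    refine ⟨o + 1, fun hr => ho2 (Mp_rank B y' y _ _ g hg _ hr), ?_⟩
    exact (Rk_succ _ _ _).2 ⟨t, ht, ho1⟩
  · rintro ⟨c, hc1, hc2⟩
    obtain ⟨o, ho⟩ := Rv_exists (ChR B y') (ChR_wf B hB y' hy') (nd i)
    have hle := Rk_iff_le (ChR B y') (nd i) o
    have h1 : o < c := by
      by_contra hcon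
      exact hc1 ((hle c ho).2 (not_lt.1 hcon))
    have h2 : Rk (ChR B y) (o + 1) (nd i) := Rk_mono _ (Order.succ_le_of_lt h1) hc2
    obtain ⟨t, ht1, ht2⟩ := (Rk_succ _ _ _).1 h2
    obtain ⟨g, hg⟩ := exists_Mp B hB y' y hy' (nd i) t
      (fun c' hc' => Rk_mono _ ((hle c' ho).1 hc') ht2)
    exact ⟨g, t, ht1, hg⟩

end Pool.Agent.NIL
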