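import Pool.Agent.NIL.LvS
import Pool.Agent.NIL.Hol

/-!
# LvL: the levels of the constructible hierarchy are level structures

For `b ∈ L_δ` the lower part `Low (Lc δ) W b a` (`Lc δ a ∧ lev a < lev b`) is equivalent to `Lc (lev b) a`
(`Lc_iff_lev`; `lev b < δ`, `Lc_mono`); use `holds_congr`.
* `irr, tra, neg`: orders of ordinals. `ext`: `ZFSet.ext` with `Lc_trans`.
* `low`: `lev_def` and `Lc_iff_lev`. `dfn`: `lev_def`. `cmp`: `Lc_cmp (lev b) f p`; the set `a` obtained satisfies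
  `Lc (lev b + 1) a`, `lev b + 1 ≤ δ` and `lev a < lev b + 1`.
-/

namespace Pool.Agent.NIL

open Cardinal Pool.Agent.NI

theorem LS_Lc (δ : Ordinal.{0}) :
    LS (Lc δ) (fun a b : ZFSet.{0} => a ∈ b) (fun a b => lev a < lev b) := by
  have hlt : ∀ b, Lc δ b → lev b < δ := fun b hb => (Lc_iff_lev hb δ).1 hb
  have hLow : ∀ b, Lc δ b → ∀ a,
      Low (Lc δ) (fun a b : ZFSet.{0} => lev a < lev b) b a ↔ Lc (lev b) a := by
    intro b hb a
    constructor
    · rintro ⟨h1, h2⟩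
      exact (Lc_iff_lev h1 (lev b)).2 h2
    · intro h
      exact ⟨Lc_mono (hlt b hb).le h, (Lc_iff_lev h (lev b)).1 h⟩
  refine ⟨fun a _ => lt_irrefl _, fun a b c _ _ _ h1 h2 => lt_trans h1 h2, ?_, ?_, ?_, ?_, ?_⟩
  · intro a b c _ _ _ h
    rcases lt_or_ge (lev a) (lev b) with h1 | h1
    · exact Or.inl h1
    · exact Or.inr (lt_of_le_of_lt h1 h)
  · intro a b ha hb h
    exact ZFSet.ext fun z => ⟨fun hz => (h z (Lc_trans ha hz)).1 hz, fun hz => (h z (Lc_trans hb hz)).2 hz⟩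
  · intro a b ha hb hab
    exact (Lc_iff_lev ha (lev b)).1 ((lev_def hb).1 a hab)
  · intro b hb
    obtain ⟨h1, f, p, hp, hf⟩ := lev_def hb
    refine ⟨f, p, fun q hq => (hLow b hb q).2 (hp q hq), fun z hz => ?_⟩
    rw [holds_congr _ _ _ (hLow b hb) f]
    exact hf z ((hLow b hb z).1 hz)
  · intro b hb f p hp
    obtain ⟨a, ha, ha'⟩ := Lc_cmp (lev b) f p (fun q hq => (hLow b hb q).1 (hp q hq))
    refine ⟨a, Lc_mono (Order.add_one_le_of_lt (hlt b hb)) ha, ?_, fun z hz => ?_⟩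
    · have h := (Lc_iff_lev ha (lev b + 1)).1 ha
      exact not_lt.2 (Order.lt_add_one_iff.1 h)
    · rw [holds_congr _ _ _ (hLow b hb) f]
      refine (ha' z).trans ?_
      rw [Lc_iff_lev hz (lev b)]

end Pool.Agent.NIL
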