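import Pool.Agent.NIL.LvB

/-!
# LvS: the levels are sets

* `Lc_set`: induction on `α`. For every `β < α` let `s β` be the set of the induction hypothesis (choice); every
  `x` with `Lc α x` is a subset of some `s β`, so an element of the union `u` of the sets `(s β).powerset`, `β < α`
  (`ZFSet.iUnion` or `ZFSet.sUnion (ZFSet.range ...)` over the type `Set.Iio α`, which is small:
  `Ordinal.small_Iio` or `inferInstance`); take `u.sep (Lc α)`.
* `Lc_cmp`: separation from the set of `Lc_set β`; it is in `L_{β+1}` by the definition.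
-/

namespace Pool.Agent.NIL

open Cardinal Pool.Agent.NI

theorem Lc_set (α : Ordinal.{0}) : ∃ s : ZFSet.{0}, ∀ x, x ∈ s ↔ Lc α x := by
  induction α using WellFoundedLT.induction with
  | ind α ih =>
    choose! s hs using ih
    refine ⟨(ZFSet.iUnion (fun i : Set.Iio α => (s i.1).powerset)).sep (Lc α), fun x => ?_⟩
    rw [ZFSet.mem_sep]
    constructor
    · exact fun h => h.2
    · intro h
      refine ⟨?_, h⟩
      have h' := h
      rw [Lc] at h'
      obtain ⟨β, hβ, h1, -⟩ := h'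
      rw [ZFSet.mem_iUnion]
      refine ⟨⟨β, hβ⟩, ?_⟩
      rw [ZFSet.mem_powerset]
      intro z hz
      exact (hs β hβ z).2 (h1 z hz)

theorem Lc_cmp (β : Ordinal.{0}) (f : SF) (p : List ZFSet.{0}) (hp : ∀ q ∈ p, Lc β q) :
    ∃ x : ZFSet.{0}, Lc (β + 1) x ∧
      ∀ z, z ∈ x ↔ (Lc β z ∧ f.holds (fun a b => a ∈ b) (Lc β) (z :: p)) := by
  obtain ⟨s, hs⟩ := Lc_set β
  refine ⟨s.sep (fun z => f.holds (fun a b => a ∈ b) (Lc β) (z :: p)), ?_, ?_⟩
  · rw [Lc]
    refine ⟨β, lt_add_one β, fun z hz => (hs z).1 (ZFSet.mem_sep.1 hz).1, f, p, hp,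
      fun z hz => ?_⟩
    rw [ZFSet.mem_sep, hs z]
    exact ⟨fun h => h.2, fun h => ⟨hz, h⟩⟩
  · intro z
    rw [ZFSet.mem_sep, hs z]

end Pool.Agent.NIL
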