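import Pool.Agent.NIL.QMsA

/-!
# QMsB: `Qs` is coanalytic
-/

namespace Pool.Agent.NIL

open Cardinal Pool.Agent.NI

lemma QMsB_polish : PolishSpace Rl := by
  have h1 : TopologicalSpace.IsCompletelyMetrizableSpace (ℕ → Bool) :=
    TopologicalSpace.IsCompletelyMetrizableSpace.pi_countable
  exact @PolishSpace.mk (ℕ → Bool) _ inferInstance h1

lemma QMsB_polish2 : PolishSpace (Rl × (ℕ → ℕ)) := by
  have h1 : TopologicalSpace.IsCompletelyMetrizableSpace (ℕ → Bool) :=
    TopologicalSpace.IsCompletelyMetrizableSpace.pi_countable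
  have h2 : TopologicalSpace.IsCompletelyMetrizableSpace ((ℕ → Bool) × (ℕ → ℕ)) :=
    TopologicalSpace.IsCompletelyMetrizableSpace.prod
  exact @PolishSpace.mk ((ℕ → Bool) × (ℕ → ℕ)) _ inferInstance h2

lemma QMsB_clopen (n i j : ℕ) (b : Bool) :
    IsClopen {q : Rl × (ℕ → ℕ) | q.2 (n + 1) = i ∧ q.2 n = j ∧ od q.1 (4 * Nat.pair i j + 1) = b} := by
  have h1 : IsClopen {q : Rl × (ℕ → ℕ) | q.2 (n + 1) = i} := by
    have hc : Continuous fun q : Rl × (ℕ → ℕ) => q.2 (n + 1) := (continuous_apply _).comp continuous_snd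
    exact (isClopen_discrete {i}).preimage hc
  have h2 : IsClopen {q : Rl × (ℕ → ℕ) | q.2 n = j} := by
    have hc : Continuous fun q : Rl × (ℕ → ℕ) => q.2 n := (continuous_apply _).comp continuous_snd
    exact (isClopen_discrete {j}).preimage hc
  have h3 : IsClopen {q : Rl × (ℕ → ℕ) | od q.1 (4 * Nat.pair i j + 1) = b} := by
    have hc : Continuous fun q : Rl × (ℕ → ℕ) => q.1 (2 * (4 * Nat.pair i j + 1) + 1) :=
      (continuous_apply _).comp continuous_fst
    exact (isClopen_discrete {b}).preimage hc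
  exact h1.inter (h2.inter h3)

lemma QMsB_closed : IsClosed {q : Rl × (ℕ → ℕ) | ∀ n, mW q.1 (q.2 (n + 1)) (q.2 n)} := by
  have h1 : {q : Rl × (ℕ → ℕ) | ∀ n, mW q.1 (q.2 (n + 1)) (q.2 n)} =
      ⋂ n : ℕ, (⋃ i : ℕ, ⋃ j : ℕ, {q : Rl × (ℕ → ℕ) | q.2 (n + 1) = i ∧ q.2 n = j ∧
        od q.1 (4 * Nat.pair i j + 1) = false})ᶜ := by
    ext q
    simp only [Set.mem_ofPred_eq, Set.mem_iInter, Set.mem_compl_iff, Set.mem_iUnion, not_exists]
    constructor
    · rintro h n i j ⟨h1, h2, h3⟩
      have h4 := h n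
      unfold mW at h4
      rw [h1, h2, h3] at h4
      exact Bool.noConfusion h4
    · intro h n
      have h4 := h n (q.2 (n + 1)) (q.2 n)
      unfold mW
      by_contra h5
      exact h4 ⟨rfl, rfl, by simpa using h5⟩
  rw [h1]
  refine isClosed_iInter fun n => ?_
  refine isClosed_compl_iff.2 ?_
  exact isOpen_iUnion fun i => isOpen_iUnion fun j => (QMsB_clopen n i j false).isOpen

theorem Qs_coanalytic : MeasureTheory.AnalyticSet Qsᶜ := by
  have hP1 : PolishSpace Rl := QMsB_polish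
  have hP2 : PolishSpace (Rl × (ℕ → ℕ)) := QMsB_polish2
  have h1 : Qsᶜ = ⋃ b : Bool, (if b then {y : Rl | Cd y}ᶜ else
      Prod.fst '' {q : Rl × (ℕ → ℕ) | ∀ n, mW q.1 (q.2 (n + 1)) (q.2 n)}) := by
    ext y
    simp only [Qs, Set.mem_compl_iff, Set.mem_ofPred_eq, not_and, Set.mem_iUnion, Bool.exists_bool]
    simp only [Bool.false_eq_true, if_false, if_true, Set.mem_image, Set.mem_ofPred_eq, Set.mem_compl_iff]
    constructor
    · intro h
      by_cases hc : Cd y
      · left
        have h2 := h hc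
        rw [wellFounded_iff_isEmpty_descending_chain] at h2
        rw [not_isEmpty_iff] at h2
        obtain ⟨⟨z, hz⟩⟩ := h2
        exact ⟨(y, z), hz, rfl⟩
      · right
        exact hc
    · rintro (⟨q, hq, rfl⟩ | h) hc
      · rw [wellFounded_iff_isEmpty_descending_chain, not_isEmpty_iff]
        exact ⟨⟨q.2, hq⟩⟩
      · exact absurd hc h
  rw [h1]
  refine MeasureTheory.AnalyticSet.iUnion fun b => ?_
  cases b with
  | true =>
    simp only [if_true]
    exact meas_Cd.compl.analyticSet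
  | false =>
    simp only [Bool.false_eq_true, if_false]
    exact QMsB_closed.analyticSet.image_of_continuous continuous_fst

end Pool.Agent.NIL
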