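import Pool.Agent.NIL.ColB
import Pool.Agent.NIL.CtL
import Pool.Agent.NIL.Bdd

/-!
# Thn: uniformized subsets of `Qs` are thin

Let `f` be such a map. `bounded` (the relations `mW (f z)` are well-founded as `f z ∈ Qs`) gives `δ < ω₁`; by `rep_RL`
`ev (f z) ∈ RL δ` for all `z`; `z ↦ ev (f z)` is injective by `hu` and the injectivity of `f`; `RL δ` is countable
(`RL_countable`), so `Rl` is countable (`Set.Countable`, `Function.Injective.countable`), a contradiction
(`ℕ → Bool` is uncountable: `Cardinal.cantor`, or `not_countable` with the instance `Uncountable (ℕ → Bool)`).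
-/

namespace Pool.Agent.NIL

open Cardinal Pool.Agent.NI

theorem thin (P : Set Rl) (hP : P ⊆ Qs) (hu : ∀ y ∈ P, ∀ y' ∈ P, ev y = ev y' → y = y') :
    ¬ ∃ f : Rl → Rl, Continuous f ∧ Function.Injective f ∧ ∀ z, f z ∈ P := by
  rintro ⟨f, hf, hi, hfP⟩
  have h4 : (#(ℕ → Bool)) = 2 ^ ℵ₀ := by simp
  obtain ⟨δ, hδ, hr⟩ := bounded f hf (fun z => (hP (hfP z)).2)
  have h1 : ∀ z, ev (f z) ∈ RL δ := fun z => rep_RL (f z) (hP (hfP z)) δ (hr z)
  have hc := RL_countable δ hδ
  have hcs : Countable (RL δ) := hc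
  let g : Rl → RL δ := fun z => ⟨ev (f z), h1 z⟩
  have hg : Function.Injective g := by
    intro z z' h
    have h2 : ev (f z) = ev (f z') := congrArg Subtype.val h
    exact hi (hu _ (hfP z) _ (hfP z') h2)
  have hcr : Countable Rl := hg.countable
  have h3 : (#(ℕ → Bool)) ≤ ℵ₀ := Cardinal.mk_le_aleph0_iff.2 hcr
  rw [h4] at h3
  exact absurd h3 (not_le.2 (Cardinal.cantor _))

end Pool.Agent.NIL
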