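import Pool.Agent.NIL.KMinA
import Pool.Agent.NIL.KMinB
import Pool.Agent.NIL.KAna
import Pool.Agent.NIL.QMsB
import Pool.Agent.NIL.Thn
import Pool.Agent.NIL.CHL
import Pool.Agent.NIL.Evn
import Pool.Agent.NI.Main

/-!
# Main: `V = L` implies Vaught's conjecture and the negation of Statement S
-/

namespace Pool.Agent.NIL

open Cardinal Pool.Agent.NI

/-- Kondo's uniformization of a coanalytic set (of joins of pairs). -/
theorem kondo (Q : Set Rl) (hQ : MeasureTheory.AnalyticSet Qᶜ) :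
    ∃ P : Set Rl, MeasureTheory.AnalyticSet Pᶜ ∧ P ⊆ Q ∧ (∀ y ∈ Q, ∃ y' ∈ P, ev y' = ev y) ∧
      ∀ y ∈ P, ∀ y' ∈ P, ev y = ev y' → y = y' := by
  obtain ⟨B, hB, rfl⟩ := coanalytic_normal Q hQ
  refine ⟨{y | y ∈ PB B ∧ ¬ Bet B y}, ?_, fun y hy => hy.1, ?_, ?_⟩
  · have : {y | y ∈ PB B ∧ ¬ Bet B y}ᶜ = ⋃ i : Bool, (if i then (PB B)ᶜ else {y | Bet B y}) := by
      ext y
      simp only [Set.mem_compl_iff, Set.mem_setOf_eq, Set.mem_iUnion, Bool.exists_bool]
      constructor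
      · intro h
        by_cases hb : Bet B y
        · left
          simpa using hb
        · right
          have : y ∉ PB B := fun hy => h ⟨hy, hb⟩
          simpa using this
      · rintro (h | h)
        · have h : Bet B y := by simpa using h
          exact fun h' => h'.2 h
        · have h : y ∉ PB B := by simpa using h
          exact fun h' => h h'.1
    rw [this]
    refine MeasureTheory.AnalyticSet.iUnion fun i => ?_
    cases i
    · simpa using analytic_Bet B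
    · simpa using hQ
  · intro y hy
    obtain ⟨y', hy', he, hb⟩ := exists_best B hB y hy
    exact ⟨y', ⟨hy', hb⟩, he⟩
  · intro y hy y' hy' he
    exact best_unique B hB y y' hy.1 hy'.1 he hy.2 hy'.2

/-- If `V = L` there is a coanalytic set of reals, cofinal in the Turing degrees, without a perfect
subset. -/
theorem exists_thin (hV : VeqL) : ∃ P : Set Rl, MeasureTheory.AnalyticSet Pᶜ ∧
    (∀ c : Rl, ∃ y ∈ P, TRed c y) ∧
    ¬ ∃ f : Rl → Rl, Continuous f ∧ Function.Injective f ∧ ∀ z, f z ∈ P := by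
  obtain ⟨P, h1, h2, h3, h4⟩ := kondo Qs Qs_coanalytic
  refine ⟨P, h1, fun c => ?_, thin P h2 h4⟩
  obtain ⟨y, hy, rfl⟩ := Qs_surj hV c
  obtain ⟨y', hy', he⟩ := h3 y hy
  exact ⟨y', hy', he ▸ ev_TRed y'⟩

theorem main :
    (VeqL → VC ∧ ¬ StatementS) ∧
    (StatementS → ∀ P : Set Rl, MeasureTheory.AnalyticSet Pᶜ → (∀ c : Rl, ∃ y ∈ P, TRed c y) →
      ∃ f : Rl → Rl, Continuous f ∧ Function.Injective f ∧ ∀ z, f z ∈ P) := by
  refine ⟨fun hV => ⟨VC_of_CH (CH_of_VeqL hV), fun hS => ?_⟩, fun hS P hP hc => S_imp hS P hP hc⟩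
  obtain ⟨P, h1, h2, h3⟩ := exists_thin hV
  exact h3 (S_imp hS P h1 h2)

end Pool.Agent.NIL
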