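import Pool.Agent.NIL.Core

/-!
# QMsA: the set of codes of level structures is Borel
-/

namespace Pool.Agent.NIL

open Cardinal Pool.Agent.NI

instance QMsA_countable : Countable SF := by
  let c : SF → ℕ := fun f => SF.rec (fun i j => 5 * Nat.pair i j) (fun i j => 5 * Nat.pair i j + 1)
    (fun _ n => 5 * n + 2) (fun _ _ n m => 5 * Nat.pair n m + 3) (fun _ n => 5 * n + 4) f
  have hc : Function.Injective c := by
    intro f
    induction f with
    | mem i j =>
      intro g hg
      cases g with
      | mem i' j' =>
        have h1 : 5 * Nat.pair i j = 5 * Nat.pair i' j' := hg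
        have h2 : Nat.pair i j = Nat.pair i' j' := by omega
        obtain ⟨h3, h4⟩ := Nat.pair_eq_pair.1 h2
        rw [h3, h4]
      | eq i' j' =>
        have h1 : 5 * Nat.pair i j = 5 * Nat.pair i' j' + 1 := hg
        omega
      | neg f' =>
        have h1 : 5 * Nat.pair i j = 5 * c f' + 2 := hg
        omega
      | and f' g' =>
        have h1 : 5 * Nat.pair i j = 5 * Nat.pair (c f') (c g') + 3 := hg
        omega
      | all f' =>
        have h1 : 5 * Nat.pair i j = 5 * c f' + 4 := hg
        omega
    | eq i j =>
      intro g hg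
      cases g with
      | mem i' j' =>
        have h1 : 5 * Nat.pair i j + 1 = 5 * Nat.pair i' j' := hg
        omega
      | eq i' j' =>
        have h1 : 5 * Nat.pair i j + 1 = 5 * Nat.pair i' j' + 1 := hg
        have h2 : Nat.pair i j = Nat.pair i' j' := by omega
        obtain ⟨h3, h4⟩ := Nat.pair_eq_pair.1 h2
        rw [h3, h4]
      | neg f' =>
        have h1 : 5 * Nat.pair i j + 1 = 5 * c f' + 2 := hg
        omega
      | and f' g' =>
        have h1 : 5 * Nat.pair i j + 1 = 5 * Nat.pair (c f') (c g') + 3 := hg
        omega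
      | all f' =>
        have h1 : 5 * Nat.pair i j + 1 = 5 * c f' + 4 := hg
        omega
    | neg f ih =>
      intro g hg
      cases g with
      | mem i' j' =>
        have h1 : 5 * c f + 2 = 5 * Nat.pair i' j' := hg
        omega
      | eq i' j' =>
        have h1 : 5 * c f + 2 = 5 * Nat.pair i' j' + 1 := hg
        omega
      | neg f' =>
        have h1 : 5 * c f + 2 = 5 * c f' + 2 := hg
        rw [ih (show c f = c f' by omega)]
      | and f' g' =>
        have h1 : 5 * c f + 2 = 5 * Nat.pair (c f') (c g') + 3 := hg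
        omega
      | all f' =>
        have h1 : 5 * c f + 2 = 5 * c f' + 4 := hg
        omega
    | and f f2 ih ih2 =>
      intro g hg
      cases g with
      | mem i' j' =>
        have h1 : 5 * Nat.pair (c f) (c f2) + 3 = 5 * Nat.pair i' j' := hg
        omega
      | eq i' j' =>
        have h1 : 5 * Nat.pair (c f) (c f2) + 3 = 5 * Nat.pair i' j' + 1 := hg
        omega
      | neg f' =>
        have h1 : 5 * Nat.pair (c f) (c f2) + 3 = 5 * c f' + 2 := hg
        omega
      | and f' g' =>
        have h1 : 5 * Nat.pair (c f) (c f2) + 3 = 5 * Nat.pair (c f') (c g') + 3 := hg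
        have h2 : Nat.pair (c f) (c f2) = Nat.pair (c f') (c g') := by omega
        obtain ⟨h3, h4⟩ := Nat.pair_eq_pair.1 h2
        rw [ih h3, ih2 h4]
      | all f' =>
        have h1 : 5 * Nat.pair (c f) (c f2) + 3 = 5 * c f' + 4 := hg
        omega
    | all f ih =>
      intro g hg
      cases g with
      | mem i' j' =>
        have h1 : 5 * c f + 4 = 5 * Nat.pair i' j' := hg
        omega
      | eq i' j' =>
        have h1 : 5 * c f + 4 = 5 * Nat.pair i' j' + 1 := hg
        omega
      | neg f' =>
        have h1 : 5 * c f + 4 = 5 * c f' + 2 := hg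
        omega
      | and f' g' =>
        have h1 : 5 * c f + 4 = 5 * Nat.pair (c f') (c g') + 3 := hg
        omega
      | all f' =>
        have h1 : 5 * c f + 4 = 5 * c f' + 4 := hg
        rw [ih (show c f = c f' by omega)]
  exact hc.countable

lemma QMsA_bit (k : ℕ) : Measurable fun y : Rl => y k = true := by
  have h1 : Measurable fun y : Rl => y k := measurable_pi_apply k
  have h2 : MeasurableSet ((fun y : Rl => y k) ⁻¹' {true}) := h1 (MeasurableSet.singleton true)
  have h3 : MeasurableSet {y : Rl | y k = true} := h2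
  exact measurableSet_setOfPred.1 h3

lemma QMsA_mE (a b : ℕ) : Measurable fun y : Rl => mE y a b := QMsA_bit _

lemma QMsA_mW (a b : ℕ) : Measurable fun y : Rl => mW y a b := QMsA_bit _

lemma QMsA_mN (a b : ℕ) : Measurable fun y : Rl => mN y a b := QMsA_bit _

lemma QMsA_mA (a : ℕ) : Measurable fun y : Rl => mA y a := QMsA_bit _

lemma QMsA_ev (a : ℕ) : Measurable fun y : Rl => ev y a = true := QMsA_bit _

lemma QMsA_Low (b a : ℕ) : Measurable fun y : Rl => Low All (mW y) b a :=
  Measurable.and measurable_const (QMsA_mW a b)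

lemma QMsA_holds (f : SF) (b : ℕ) (v : List ℕ) :
    Measurable fun y : Rl => f.holds (mE y) (Low All (mW y) b) v := by
  induction f generalizing v with
  | mem i j =>
    exact Measurable.exists fun a => Measurable.and measurable_const
      (Measurable.exists fun b => Measurable.and measurable_const (QMsA_mE a b))
  | eq i j => exact measurable_const
  | neg f ih => exact Measurable.not (ih v)
  | and f g ihf ihg => exact Measurable.and (ihf v) (ihg v)
  | all f ih => exact Measurable.forall fun a => Measurable.imp (QMsA_Low b a) (ih (a :: v))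

theorem meas_holds (f : SF) (b : ℕ) (v : List ℕ) :
    MeasurableSet {y : Rl | f.holds (mE y) (Low All (mW y) b) v} :=
  measurableSet_setOfPred.2 (QMsA_holds f b v)

lemma QMsA_iff (y : Rl) : Cd y ↔
    ((∀ a, ¬ mW y a a) ∧
     (∀ a b c, mW y a b → mW y b c → mW y a c) ∧
     (∀ a b c, mW y a c → mW y a b ∨ mW y b c) ∧
     (∀ a b, (∀ z, (mE y z a ↔ mE y z b)) → a = b) ∧
     (∀ a b, mE y a b → mW y a b) ∧
     (∀ b, ∃ (f : SF) (p : List ℕ), (∀ q, q ∈ p → Low All (mW y) b q) ∧
        ∀ z, Low All (mW y) b z → (mE y z b ↔ f.holds (mE y) (Low All (mW y) b) (z :: p))) ∧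
     (∀ b, ∀ (f : SF) (p : List ℕ), (∀ q, q ∈ p → Low All (mW y) b q) →
        ∃ a, ¬ mW y b a ∧ ∀ z, (mE y z a ↔ (mW y z b ∧ f.holds (mE y) (Low All (mW y) b) (z :: p)))) ∧
     (∀ n, ∃ a, mN y n a) ∧
     (∀ a, mN y 0 a → ∀ z, ¬ mE y z a) ∧
     (∀ n a b, mN y n a → mN y (n + 1) b → ∀ z, mE y z b ↔ (mE y z a ∨ z = a)) ∧
     (∃ a, mA y a ∧ ∀ z, mE y z a ↔ ∃ n, ev y n = true ∧ mN y n z)) := by
  constructor
  · intro h
    exact ⟨fun a => h.ls.irr a trivial, fun a b c => h.ls.tra a b c trivial trivial trivial,
      fun a b c => h.ls.neg a b c trivial trivial trivial,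
      fun a b hz => h.ls.ext a b trivial trivial (fun z _ => hz z),
      fun a b => h.ls.low a b trivial trivial,
      fun b => h.ls.dfn b trivial,
      fun b f p hp => by
        obtain ⟨a, _, h1, h2⟩ := h.ls.cmp b trivial f p hp
        exact ⟨a, h1, fun z => h2 z trivial⟩,
      h.num, h.num0, h.numS, h.rep⟩
  · rintro ⟨h1, h2, h3, h4, h5, h6, h7, h8, h9, h10, h11⟩
    exact ⟨⟨fun a _ => h1 a, fun a b c _ _ _ => h2 a b c, fun a b c _ _ _ => h3 a b c,
      fun a b _ _ hz => h4 a b (fun z => hz z trivial), fun a b _ _ => h5 a b,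
      fun b _ => h6 b, fun b _ f p hp => by
        obtain ⟨a, h12, h13⟩ := h7 b f p hp
        exact ⟨a, trivial, h12, fun z _ => h13 z⟩⟩, h8, h9, h10, h11⟩

theorem meas_Cd : MeasurableSet {y : Rl | Cd y} := by
  have h : {y : Rl | Cd y} = {y : Rl | _} := Set.ext fun y => QMsA_iff y
  rw [h]
  refine measurableSet_setOfPred.2 ?_
  refine Measurable.and ?_ (Measurable.and ?_ (Measurable.and ?_ (Measurable.and ?_ (Measurable.and ?_
    (Measurable.and ?_ (Measurable.and ?_ (Measurable.and ?_ (Measurable.and ?_ (Measurable.and ?_ ?_)))))))))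
  · exact Measurable.forall fun a => (QMsA_mW a a).not
  · exact Measurable.forall fun a => Measurable.forall fun b => Measurable.forall fun c =>
      (QMsA_mW a b).imp ((QMsA_mW b c).imp (QMsA_mW a c))
  · exact Measurable.forall fun a => Measurable.forall fun b => Measurable.forall fun c =>
      (QMsA_mW a c).imp ((QMsA_mW a b).or (QMsA_mW b c))
  · exact Measurable.forall fun a => Measurable.forall fun b =>
      Measurable.imp (Measurable.forall fun z => (QMsA_mE z a).iff (QMsA_mE z b)) measurable_const
  · exact Measurable.forall fun a => Measurable.forall fun b => (QMsA_mE a b).imp (QMsA_mW a b)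
  · exact Measurable.forall fun b => Measurable.exists fun f => Measurable.exists fun p =>
      Measurable.and (Measurable.forall fun q => Measurable.imp measurable_const (QMsA_Low b q))
        (Measurable.forall fun z => (QMsA_Low b z).imp ((QMsA_mE z b).iff (QMsA_holds f b (z :: p))))
  · exact Measurable.forall fun b => Measurable.forall fun f => Measurable.forall fun p =>
      Measurable.imp (Measurable.forall fun q => Measurable.imp measurable_const (QMsA_Low b q))
        (Measurable.exists fun a => Measurable.and (QMsA_mW b a).not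
          (Measurable.forall fun z => (QMsA_mE z a).iff ((QMsA_mW z b).and (QMsA_holds f b (z :: p)))))
  · exact Measurable.forall fun n => Measurable.exists fun a => QMsA_mN n a
  · exact Measurable.forall fun a => (QMsA_mN 0 a).imp (Measurable.forall fun z => (QMsA_mE z a).not)
  · exact Measurable.forall fun n => Measurable.forall fun a => Measurable.forall fun b =>
      (QMsA_mN n a).imp ((QMsA_mN (n + 1) b).imp (Measurable.forall fun z =>
        (QMsA_mE z b).iff ((QMsA_mE z a).or measurable_const)))
  · exact Measurable.exists fun a => (QMsA_mA a).and (Measurable.forall fun z =>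
      (QMsA_mE z a).iff (Measurable.exists fun n => (QMsA_ev n).and (QMsA_mN n z)))

end Pool.Agent.NIL
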