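import Pool.Agent.NIL.Core
import Pool.Agent.NI.Grd

/-!
# RkW: exact ranks

`Rv R β b`: the rank of `b` is exactly `β`.
* `Rv_exists`: `Rk_acc`, `exists_Rk_max` (module Grd). `Rv_unique`: `Rk_mono`.
* `Rk_iff_le`: `Rk_mono`. `Rv_lt`: if `β' ≤ β` then `Rk R β' a` (`Rk_mono`), so `Rk R (β' + 1) b` (`Rk_succ`).
* `Rv_below`: `Rk W (γ + 1) b`, so there is `q` with `W q b`, `Rk W γ q`; take a `W`-minimal `c` with
  `W c b ∧ Rk W γ c` (`hW.has_min`); if `Rk W (γ + 1) c` then there is `c'` with `W c' c`, `Rk W γ c'`, and `W c' b` by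
  transitivity, a contradiction.
* `W_iff_lt`: `→` `Rv_lt`. `←`: by `Rv_below` there is `c` with `W c b`, `Rv W α c`; by `neg`: `W c a` or `W a b`; `W c a` is
  impossible by `Rv_lt`.
* `Rk_bound_countable`: for all `p` (`h.induction`): there is `δ < ω₁` with `¬ Rk R δ p`: take `δ_q` for `q` below `p` and
  `δ = (sup δ_q) + 1` (a countable supremum of countable ordinals: `Ordinal.iSup_lt_ord` with the regularity of
  `ℵ₁`, or search `lt_omega_one`/`omega 1` lemmas). Then the supremum over all `p` (countably many) and `Rk_mono`.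
-/

namespace Pool.Agent.NIL

open Cardinal Pool.Agent.NI

/-- The rank of `b` is exactly `β`. -/
def Rv {α : Type} (R : α → α → Prop) (β : Ordinal.{0}) (b : α) : Prop := Rk R β b ∧ ¬ Rk R (β + 1) b

theorem Rv_exists {α : Type} (R : α → α → Prop) (h : WellFounded R) (b : α) : ∃ β, Rv R β b := by
  obtain ⟨o, h1, h2⟩ := exists_Rk_max R b (Rk_acc R b (h.apply b))
  exact ⟨o, h1, h2⟩

theorem Rv_unique {α : Type} (R : α → α → Prop) (b : α) (β β' : Ordinal.{0}) (h : Rv R β b)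
    (h' : Rv R β' b) : β = β' := by
  rcases lt_trichotomy β β' with hlt | he | hlt
  · exact absurd (Rk_mono R (Order.add_one_le_of_lt hlt) h'.1) h.2
  · exact he
  · exact absurd (Rk_mono R (Order.add_one_le_of_lt hlt) h.1) h'.2

theorem Rk_iff_le {α : Type} (R : α → α → Prop) (b : α) (β c : Ordinal.{0}) (h : Rv R β b) :
    Rk R c b ↔ c ≤ β := by
  constructor
  · intro hc
    by_contra hn
    exact h.2 (Rk_mono R (Order.add_one_le_of_lt (not_le.1 hn)) hc)
  · intro hc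
    exact Rk_mono R hc h.1

theorem Rv_lt {α : Type} (R : α → α → Prop) (a b : α) (β β' : Ordinal.{0}) (h : Rv R β a)
    (h' : Rv R β' b) (hab : R a b) : β < β' := by
  by_contra hn
  exact h'.2 ((Rk_succ R β' b).2 ⟨a, hab, Rk_mono R (not_lt.1 hn) h.1⟩)

theorem Rv_below {E W : ℕ → ℕ → Prop} (h : LS All E W) (hW : WellFounded W) (b : ℕ)
    (β γ : Ordinal.{0}) (hb : Rv W β b) (hγ : γ < β) : ∃ c, W c b ∧ Rv W γ c := by
  have h1 : Rk W (γ + 1) b := Rk_mono W (Order.add_one_le_of_lt hγ) hb.1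
  obtain ⟨q, hq, hq'⟩ := (Rk_succ W γ b).1 h1
  obtain ⟨c, ⟨hc1, hc2⟩, hc3⟩ := hW.has_min {c | W c b ∧ Rk W γ c} ⟨q, hq, hq'⟩
  refine ⟨c, hc1, hc2, fun h2 => ?_⟩
  obtain ⟨c', h3, h4⟩ := (Rk_succ W γ c).1 h2
  exact hc3 c' ⟨h.tra c' c b trivial trivial trivial h3 hc1, h4⟩ h3

theorem W_iff_lt {E W : ℕ → ℕ → Prop} (h : LS All E W) (hW : WellFounded W) (a b : ℕ)
    (α β : Ordinal.{0}) (ha : Rv W α a) (hb : Rv W β b) : W a b ↔ α < β := by
  constructor
  · exact Rv_lt W a b α β ha hb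
  · intro hlt
    obtain ⟨c, hc1, hc2⟩ := Rv_below h hW b β α hb hlt
    rcases h.neg c a b trivial trivial trivial hc1 with h1 | h1
    · exact absurd (Rv_lt W c a α α hc2 ha h1) (lt_irrefl _)
    · exact h1

theorem Rk_bound_countable {α : Type} [Countable α] (R : α → α → Prop) (h : WellFounded R) :
    ∃ δ : Ordinal.{0}, δ < Ordinal.omega 1 ∧ ∀ p, ¬ Rk R δ p := by
  have h1 : ∀ p, ∃ δ : Ordinal.{0}, δ < Ordinal.omega 1 ∧ ¬ Rk R δ p := by
    intro p
    induction p using h.induction with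
    | _ p ih =>
      have h2 : ∀ q : {q // R q p}, ∃ δ : Ordinal.{0}, δ < Ordinal.omega 1 ∧ ¬ Rk R δ q.1 :=
        fun q => ih q.1 q.2
      choose d hd hd' using h2
      have hs : (⨆ q, d q) < Ordinal.omega 1 := Ordinal.iSup_lt_omega_one hd
      refine ⟨(⨆ q, d q) + 1, (Cardinal.isSuccLimit_omega 1).add_one_lt hs, fun h3 => ?_⟩
      obtain ⟨q, hq, hq'⟩ := (Rk_succ R _ p).1 h3
      exact hd' ⟨q, hq⟩ (Rk_mono R (Ordinal.le_iSup d ⟨q, hq⟩) hq')
  choose d hd hd' using h1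
  exact ⟨⨆ p, d p, Ordinal.iSup_lt_omega_one hd, fun p hp =>
    hd' p (Rk_mono R (Ordinal.le_iSup d p) hp)⟩

end Pool.Agent.NIL
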